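import Pool.Agent.H630VC.Avg4
import Pool.Agent.H630VC.Bis1

/-! Randomised circuits: the engine with a free bound on the number of classes (helper630) -/

open scoped Classical
open Finset

namespace H630VC

/-- the engine with explicit parameters and a free bound `K` for the number of classes -/
theorem engine3 (n L P : ℕ) (τ K : ℝ) (hL : 1 ≤ L) (hP : 1 ≤ P) (hτ : 1 ≤ τ) (hn : 8 * τ ≤ n)
    (h : (4 * 10 ^ 5 * τ * L ^ 3 * (Nat.log 2 n + 1) * P) ^ 2 ≤ K)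
    {R : Type*} [Fintype R] [Nonempty R] (l : R → List (SimpleGraph (Fin n) → ℝ))
    (q : R → List (List ((SimpleGraph (Fin n) → ℝ) × ℝ))) (f : R → SimpleGraph (Fin n) → ℝ)
    (hp : ∀ r, FProg (graphInputs (Fin n)) (l r) (q r)) (hf : ∀ r, f r ∈ l r)
    (hcomb : ∀ r, combos (q r) ≤ P)
    (hsize : ∀ r, 8 * ((l r).length + wires (q r) + 2) ≤ 2 ^ L) (θ : ℝ)
    (hyes : ∀ (G : SimpleGraph (Fin n)) (A : ℕ) (β : Fin n → Fin A), (A : ℝ) ≤ K →
      classGraph β ≤ G → 3 * Fintype.card R ≤ 4 * (univ.filter fun r => θ ≤ f r G).card)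
    (hno : ∀ T : Finset (Fin n), (T.card : ℝ) ≤ n / (4 * τ) →
      4 * (univ.filter fun r => θ ≤ f r (touchGraph T)).card ≤ Fintype.card R) : False := by
  have hn8 : (8 : ℝ) ≤ n := by linarith
  have hn8' : 8 ≤ n := by exact_mod_cast hn8
  have : Nonempty (Fin n) := ⟨⟨0, by omega⟩⟩
  have hP' : (1 : ℝ) ≤ P := by exact_mod_cast hP
  have hL' : (1 : ℝ) ≤ L := by exact_mod_cast hL
  set lam := Nat.log 2 n + 1 with hlam
  have hnlam : n ≤ 2 ^ lam := (Nat.lt_pow_succ_log_self (by norm_num) n).le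
  have hlam1 : 1 ≤ lam := by omega
  set a := ⌈512 * P * τ⌉₊ with ha
  have ha_ge : 512 * P * τ ≤ (a : ℝ) := Nat.le_ceil _
  have hPτ : 1 ≤ P * τ := by nlinarith
  have ha_le : (a : ℝ) ≤ 513 * (P * τ) := by
    have h1 : (a : ℝ) ≤ 512 * P * τ + 1 := (Nat.ceil_lt_add_one (by positivity)).le
    linarith
  have ha0 : (0 : ℝ) < a := by nlinarith
  have ha1 : 1 ≤ a := by
    have : 0 < a := by exact_mod_cast ha0
    omega
  set m := 7 * L * lam with hmdef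
  have hm1 : 1 ≤ m := Nat.one_le_iff_ne_zero.2 (by positivity)
  set Q := a * m with hQdef
  have hQ : 1 ≤ Q := Nat.one_le_iff_ne_zero.2 (by positivity)
  set t := ⌈64 * (P : ℝ) * n / a⌉₊ with ht
  have ht_ge : 64 * (P : ℝ) * n / a ≤ t := Nat.le_ceil _
  have ht_le : (t : ℝ) ≤ n / (4 * τ) := by
    have h1 : (t : ℝ) ≤ 64 * (P : ℝ) * n / a + 1 := (Nat.ceil_lt_add_one (by positivity)).le
    have h2 : 64 * (P : ℝ) * n / a ≤ n / (8 * τ) := by
      rw [div_le_div_iff₀ ha0 (by positivity)]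
      calc 64 * (P : ℝ) * n * (8 * τ) = (512 * P * τ) * n := by ring
        _ ≤ a * n := by gcongr
        _ = n * a := by ring
    have h3 : 1 ≤ (n : ℝ) / (8 * τ) := by
      rw [le_div_iff₀ (by positivity)]
      linarith
    have h4 : (n : ℝ) / (4 * τ) = n / (8 * τ) + n / (8 * τ) := by field_simp; ring
    rw [h4]
    linarith
  have hcols : cols L Q ≤ 451584 * a ^ 2 * L ^ 6 * lam ^ 2 := by
    unfold cols
    have e1 : 4 * (4 * (2 * L) * (2 * L + 1) * Q) ≤ 96 * L ^ 2 * Q := by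
      have : 4 * (4 * (2 * L) * (2 * L + 1) * Q) = (64 * L ^ 2 + 32 * L) * Q := by ring
      rw [this]
      apply Nat.mul_le_mul_right
      nlinarith
    calc (4 * (4 * (2 * L) * (2 * L + 1) * Q)) ^ 2 ≤ (96 * L ^ 2 * Q) ^ 2 :=
          Nat.pow_le_pow_left e1 2
      _ = 451584 * a ^ 2 * L ^ 6 * lam ^ 2 := by
          rw [hQdef, hmdef]; ring
  have hcolsK : (cols L Q : ℝ) ≤ K := by
    refine le_trans ?_ h
    calc (cols L Q : ℝ) ≤ ((451584 * a ^ 2 * L ^ 6 * lam ^ 2 : ℕ) : ℝ) := by exact_mod_cast hcols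
      _ = (672 * a * L ^ 3 * lam) ^ 2 := by push_cast; ring
      _ ≤ (4 * 10 ^ 5 * τ * L ^ 3 * (Nat.log 2 n + 1) * P) ^ 2 := by
          apply pow_le_pow_left₀ (by positivity)
          have e1 : ((lam : ℕ) : ℝ) = (Nat.log 2 n : ℝ) + 1 := by rw [hlam]; push_cast; ring
          rw [e1]
          have e2 : (0 : ℝ) ≤ (Nat.log 2 n : ℝ) + 1 := by positivity
          calc 672 * (a : ℝ) * L ^ 3 * ((Nat.log 2 n : ℝ) + 1)
              ≤ 672 * (513 * (P * τ)) * L ^ 3 * ((Nat.log 2 n : ℝ) + 1) := by gcongr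
            _ = 344736 * (τ * L ^ 3 * ((Nat.log 2 n : ℝ) + 1) * P) := by ring
            _ ≤ 4 * 10 ^ 5 * (τ * L ^ 3 * ((Nat.log 2 n : ℝ) + 1) * P) := by
                apply mul_le_mul_of_nonneg_right (by norm_num) (by positivity)
            _ = _ := by ring
  refine engine L m Q t P (2 ^ L / 8) hL hm1 hQ hP l q f hp hf hcomb ?_ ?_ ?_ ?_ θ ?_ ?_
  · intro r
    rw [Nat.le_div_iff_mul_le (by norm_num)]
    have := hsize r
    omega
  · exact Nat.mul_div_le _ _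
  · rw [Fintype.card_fin]
    have e0 : 16 * (2 ^ L / 8) ≤ 2 * 2 ^ L := by
      have := Nat.mul_div_le (2 ^ L) 8
      omega
    have e1 : n ^ (4 * L) ≤ 2 ^ (4 * L * lam) := by
      calc n ^ (4 * L) ≤ (2 ^ lam) ^ (4 * L) := Nat.pow_le_pow_left hnlam _
        _ = 2 ^ (4 * L * lam) := by rw [← pow_mul]; ring_nf
    calc 16 * (2 ^ L / 8) * n ^ (4 * L) ≤ (2 * 2 ^ L) * 2 ^ (4 * L * lam) :=
          Nat.mul_le_mul e0 e1
      _ = 2 ^ (1 + L + 4 * L * lam) := by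
          rw [pow_add, pow_add]; ring
      _ ≤ 2 ^ m := by
          apply Nat.pow_le_pow_right (by norm_num)
          rw [hmdef]
          nlinarith
  · rw [Fintype.card_fin]
    have e1 : 64 * P * n ≤ t * a := by
      rw [div_le_iff₀ ha0] at ht_ge
      exact_mod_cast ht_ge
    calc 64 * P * (n * m) = (64 * P * n) * m := by ring
      _ ≤ (t * a) * m := by gcongr
      _ = t * Q := by rw [hQdef]; ring
  · rintro G ⟨β, hβ⟩
    exact hyes G _ β hcolsK hβ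
  · intro T hT
    refine hno T (le_trans ?_ ht_le)
    exact_mod_cast hT

/-- the asymptotic choice of the parameter `L` -/
theorem asymp_params3 (K α δ δ' κ : ℝ) (hK : 0 ≤ K) (hδ : 0 < δ) (hδ' : 0 < δ')
    (hsum : α + 3 * δ + δ' ≤ κ) :
    ∃ N : ℕ, ∀ n : ℕ, N ≤ n → 2 ≤ n ∧ ∃ L : ℕ, 1 ≤ L ∧
      (∀ Y : ℝ, 0 ≤ Y → Y ≤ (n : ℝ) ^ α →
        K * L ^ 3 * ((Nat.log 2 n : ℝ) + 1) * Y ≤ (n : ℝ) ^ κ) ∧
      (∀ s : ℕ, (s : ℝ) < (2 : ℝ) ^ ((n : ℝ) ^ δ) → 8 * (s + (2 * n + 3)) ≤ 2 ^ L) := by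
  obtain ⟨N1, hN1⟩ := eventually_log (216 * K) δ' hδ'
  obtain ⟨N2, hN2⟩ := eventually_log 2 δ hδ
  refine ⟨max (max N1 N2) 2, fun n hn => ?_⟩
  have hn2 : 2 ≤ n := (le_max_right _ _).trans hn
  have hn1 : 1 ≤ n := by omega
  have hn0 : (1 : ℝ) ≤ n := by exact_mod_cast hn1
  have hnpos : (0 : ℝ) < n := by linarith
  have g1 := hN1 n (((le_max_left _ _).trans (le_max_left _ _)).trans hn)
  have g2 := hN2 n (((le_max_right _ _).trans (le_max_left _ _)).trans hn)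
  set x : ℝ := (n : ℝ) ^ δ with hx
  have hx1 : 1 ≤ x := Real.one_le_rpow hn0 (by positivity)
  have hLx : x + 4 ≤ ((⌈x⌉₊ + 4 : ℕ) : ℝ) := by
    push_cast
    linarith [Nat.le_ceil x]
  have hLx' : ((⌈x⌉₊ + 4 : ℕ) : ℝ) ≤ 6 * x := by
    push_cast
    have := (Nat.ceil_lt_add_one (show (0 : ℝ) ≤ x by linarith)).le
    linarith
  have hlam0 : (1 : ℝ) ≤ (Nat.log 2 n : ℝ) + 1 := by
    have : (0 : ℝ) ≤ (Nat.log 2 n : ℝ) := by positivity
    linarith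
  refine ⟨hn2, ⌈x⌉₊ + 4, by omega, ?_, ?_⟩
  · intro Y hY0 hY
    have e2 : ((⌈x⌉₊ + 4 : ℕ) : ℝ) ^ 3 ≤ 216 * (n : ℝ) ^ (3 * δ) := by
      calc ((⌈x⌉₊ + 4 : ℕ) : ℝ) ^ 3 ≤ (6 * x) ^ 3 := pow_le_pow_left₀ (by positivity) hLx' 3
        _ = 216 * x ^ 3 := by ring
        _ = _ := by
            rw [hx, ← Real.rpow_natCast, ← Real.rpow_mul (by positivity)]
            congr 2; push_cast; ring
    have e3 : 216 * K * ((Nat.log 2 n : ℝ) + 1) ≤ (n : ℝ) ^ δ' := by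
      refine le_trans ?_ g1
      have : (Nat.log 2 n : ℝ) + 1 ≤ ((Nat.log 2 n : ℝ) + 1) ^ 2 := by nlinarith
      gcongr
    calc K * ((⌈x⌉₊ + 4 : ℕ) : ℝ) ^ 3 * ((Nat.log 2 n : ℝ) + 1) * Y
        ≤ K * (216 * (n : ℝ) ^ (3 * δ)) * ((Nat.log 2 n : ℝ) + 1) * (n : ℝ) ^ α := by gcongr
      _ = (n : ℝ) ^ α * (n : ℝ) ^ (3 * δ) * (216 * K * ((Nat.log 2 n : ℝ) + 1)) := by ring
      _ ≤ (n : ℝ) ^ α * (n : ℝ) ^ (3 * δ) * (n : ℝ) ^ δ' := by gcongr
      _ = (n : ℝ) ^ (α + 3 * δ + δ') := by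
          rw [Real.rpow_add hnpos, Real.rpow_add hnpos]
      _ ≤ (n : ℝ) ^ κ := Real.rpow_le_rpow_of_exponent_le hn0 hsum
  · intro s hs
    have h3 := log_le_rpow' hn2 g2
    have h4 : (2 : ℝ) ^ (x + 4) ≤ (2 : ℝ) ^ ((⌈x⌉₊ + 4 : ℕ) : ℝ) :=
      Real.rpow_le_rpow_of_exponent_le (by norm_num) hLx
    rw [Real.rpow_add (by norm_num), Real.rpow_natCast] at h4
    have h4' : (2 : ℝ) ^ x * 16 ≤ (2 : ℝ) ^ (⌈x⌉₊ + 4) := by
      calc (2 : ℝ) ^ x * 16 = (2 : ℝ) ^ x * (2 : ℝ) ^ (4 : ℝ) := by norm_num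
        _ ≤ _ := h4
    have h5 : ((8 * (s + (2 * n + 3)) : ℕ) : ℝ) ≤ ((2 ^ (⌈x⌉₊ + 4) : ℕ) : ℝ) := by
      push_cast
      push_cast at h3
      linarith
    exact_mod_cast h5

/-- thresholding the output -/
theorem exists_boolean {I R : Type*} {inp : Set (I → ℝ)} {l : R → List (I → ℝ)}
    {q : R → List (List ((I → ℝ) × ℝ))} (hp : ∀ r, FProg inp (l r) (q r)) (f : R → I → ℝ)
    (hf : ∀ r, f r ∈ l r) :
    ∀ r, FProg inp ((fun x => if 1 ≤ f r x then (1 : ℝ) else 0) :: l r) (q r) := by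
  intro r
  have hφ : Mono2 fun a _ : ℝ => if 1 ≤ a then (1 : ℝ) else 0 := by
    intro a a' b b' ha _
    show (if 1 ≤ a then (1 : ℝ) else 0) ≤ if 1 ≤ a' then 1 else 0
    split_ifs with h1 h2 h2
    · exact le_rfl
    · exact absurd (h1.trans ha) h2
    · exact zero_le_one
    · exact le_rfl
  exact FProg.gate (φ := fun a _ => if 1 ≤ a then (1 : ℝ) else 0) (hp r) hφ (hf r) (hf r)

end H630VC
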