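import Pool.Agent.H630VC.FreeModel

/-!
# Circuits that tell graphs with huge cliques from graphs with few colours: the definitions
-/

open scoped Classical
open Finset

namespace H630VC

/-- the inputs of the circuits: adjacency bits and real constants -/
def adjInputs (V : Type*) : Set (SimpleGraph V → ℝ) :=
  {f | (∃ u v : V, f = fun G => if G.Adj u v then 1 else 0) ∨ ∃ c : ℝ, f = fun _ => c}

/-- a randomised circuit, that is a finite family `l` of circuits indexed by the random strings `r`
in `R`, separates the graphs that have a clique with at least `a` vertices from the graphs that have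
a proper colouring with at most `b` colours: its output is at least one on the former and less than
one on the latter, in both cases for at least three quarters of the random strings -/
def RSepClique {R : Type*} [Fintype R] {n : ℕ} (a b : ℝ)
    (l : R → List (SimpleGraph (Fin n) → ℝ)) : Prop :=
  ∃ f : R → SimpleGraph (Fin n) → ℝ, (∀ r, f r ∈ l r) ∧ ∀ G : SimpleGraph (Fin n),
    ((∃ S : Finset (Fin n), G.IsClique S ∧ a ≤ S.card) →
      3 * Fintype.card R ≤ 4 * (univ.filter fun r => 1 ≤ f r G).card) ∧
    ((∃ k : ℕ, (k : ℝ) ≤ b ∧ G.Colorable k) →
      3 * Fintype.card R ≤ 4 * (univ.filter fun r => f r G < 1).card)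

end H630VC
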