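import Pool.Agent.H630VC.CliqueModel
import Pool.Agent.H630VC.Avg5

/-! Huge cliques against few colours (helper630) -/

open scoped Classical
open Finset

namespace H630VC

theorem compl_inputs {V : Type*} (f : SimpleGraph V → ℝ) (hf : f ∈ adjInputs V) :
    (fun G : SimpleGraph V => 1 - f Gᶜ) ∈ graphInputs V := by
  rcases hf with ⟨u, v, rfl⟩ | ⟨c, rfl⟩
  · by_cases huv : u = v
    · subst huv
      refine Or.inr ⟨1, ?_⟩
      funext G
      simp
    · refine Or.inl ⟨u, v, ?_⟩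
      funext G
      simp only [SimpleGraph.compl_adj, edgeBit]
      by_cases h : G.Adj u v
      · rw [if_neg (fun hh => hh.2 h), if_pos h]; norm_num
      · rw [if_pos ⟨huv, h⟩, if_neg h]; norm_num
  · exact Or.inr ⟨1 - c, rfl⟩

theorem colorable_compl {n A : ℕ} (β : Fin n → Fin A) (G : SimpleGraph (Fin n))
    (hG : classGraph β ≤ G) : Gᶜ.Colorable A := by
  refine ⟨SimpleGraph.Coloring.mk β ?_⟩
  intro u v huv h
  exact huv.2 (hG ⟨huv.1, h⟩)

theorem isClique_compl_touch {n : ℕ} (T : Finset (Fin n)) :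
    (touchGraph T)ᶜ.IsClique ((Tᶜ : Finset (Fin n)) : Set (Fin n)) := by
  intro u hu v hv huv
  rw [mem_coe, mem_compl] at hu hv
  refine ⟨huv, ?_⟩
  rintro ⟨-, h | h⟩
  · exact hu h
  · exact hv h

theorem asymp_clique (κ α c ν : ℝ) (hκ : κ ≤ 1) (hc : 0 ≤ c) (hα : 0 ≤ α) (hν : 0 < ν)
    (h : 2 * α + 2 * c + 6 * ν < κ) :
    ∃ N : ℕ, ∀ n : ℕ, N ≤ n → ∀ (R : Type) [Fintype R] [Nonempty R]
      (l : R → List (SimpleGraph (Fin n) → ℝ))
      (q : R → List (List ((SimpleGraph (Fin n) → ℝ) × ℝ))),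
      (∀ r, FProg (adjInputs (Fin n)) (l r) (q r)) →
      RSepClique ((1 - (n : ℝ) ^ (-c)) * n) ((n : ℝ) ^ κ) l →
      (∀ r, (combos (q r) : ℝ) ≤ (n : ℝ) ^ α) →
      ∃ r, (2 : ℝ) ^ ((n : ℝ) ^ ν) ≤ (l r).length + wires (q r) := by
  obtain ⟨N, hN⟩ := asymp_params3 (4 * 10 ^ 5) (α + c) ν (κ / 2 - (α + c) - 3 * ν) (κ / 2)
    (by norm_num) hν (by linarith) (by linarith)
  obtain ⟨N1, hN1⟩ := Filter.eventually_atTop.1 (((tendsto_rpow_atTop
    (show (0 : ℝ) < 1 - c by linarith)).comp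
    (tendsto_natCast_atTop_atTop (R := ℝ))).eventually_ge_atTop 8)
  refine ⟨max N N1, fun n hn R _ _ l q hp hs hP => ?_⟩
  obtain ⟨hn2, L, hL, hY, hsz⟩ := hN n ((le_max_left _ _).trans hn)
  have hn8 := hN1 n ((le_max_right _ _).trans hn)
  simp only [Function.comp] at hn8
  have hn1R : (1 : ℝ) ≤ n := by
    have : 1 ≤ n := by omega
    exact_mod_cast this
  have hnpos : (0 : ℝ) < n := by linarith
  by_contra hlt
  push Not at hlt
  set P : ℕ := ⌊(n : ℝ) ^ α⌋₊ with hPdef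
  have hcomb : ∀ r, combos (q r) ≤ P := fun r => Nat.le_floor (hP r)
  have hP1 : 1 ≤ P := by
    obtain ⟨r⟩ := ‹Nonempty R›
    exact (one_le_prod (q r)).trans (hcomb r)
  have hPle : (P : ℝ) ≤ (n : ℝ) ^ α := Nat.floor_le (by positivity)
  set τ : ℝ := (n : ℝ) ^ c with hτ
  have hτ1 : 1 ≤ τ := Real.one_le_rpow hn1R hc
  have hετ : (n : ℝ) ^ (-c) * τ = 1 := by
    rw [hτ, ← Real.rpow_add hnpos]
    simp
  have hε0 : 0 < (n : ℝ) ^ (-c) := by positivity
  obtain ⟨f, hf, happ⟩ := hs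
  set g : R → SimpleGraph (Fin n) → ℝ := fun r G => if 1 ≤ f r G then (1 : ℝ) else 0 with hg
  have hneg := fun r => FProg.neg (J := SimpleGraph (Fin n)) (inp' := graphInputs (Fin n))
    (fun G => Gᶜ) compl_inputs (exists_boolean hp f hf r)
  choose q' hq1 hq2 hq3 using hneg
  refine engine3 n L P τ ((n : ℝ) ^ κ) hL hP1 hτ1 ?_ ?_
    (fun r => (g r :: l r).map fun f => fun G => 1 - f Gᶜ) q'
    (fun r G => 1 - g r Gᶜ) hq1
    (fun r => List.mem_map.2 ⟨g r, List.mem_cons_self, rfl⟩) ?_ ?_ 1 ?_ ?_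
  · calc 8 * τ ≤ (n : ℝ) ^ (1 - c) * τ := by gcongr
      _ = n := by
          rw [hτ, ← Real.rpow_add hnpos]
          simp
  · have h1 := hY (P * τ) (by positivity) (by
      rw [Real.rpow_add hnpos, ← hτ]
      gcongr)
    have h2 : ((n : ℝ) ^ (κ / 2)) ^ 2 = (n : ℝ) ^ κ := by
      rw [← Real.rpow_natCast, ← Real.rpow_mul hnpos.le]
      congr 1
      push_cast
      ring
    rw [← h2]
    apply pow_le_pow_left₀ (by positivity)
    calc 4 * 10 ^ 5 * τ * (L : ℝ) ^ 3 * ((Nat.log 2 n : ℝ) + 1) * P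
        = 4 * 10 ^ 5 * (L : ℝ) ^ 3 * ((Nat.log 2 n : ℝ) + 1) * (P * τ) := by ring
      _ ≤ _ := h1
  · intro r
    rw [hq3]
    exact hcomb r
  · intro r
    rw [List.length_map, hq2, List.length_cons]
    have h1 := hsz ((l r).length + wires (q r)) (by push_cast; exact hlt r)
    omega
  · intro G A β hA hG
    refine ((happ Gᶜ).2 ⟨A, hA, colorable_compl β G hG⟩).trans
      (Nat.mul_le_mul_left _ (card_le_card ?_))
    intro r hr
    rw [mem_filter] at hr ⊢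
    refine ⟨mem_univ _, ?_⟩
    show 1 ≤ 1 - (if 1 ≤ f r Gᶜ then (1 : ℝ) else 0)
    rw [if_neg (not_le.2 hr.2)]
    norm_num
  · intro T hT
    have hcard : (1 - (n : ℝ) ^ (-c)) * n ≤ ((Tᶜ : Finset (Fin n)).card : ℝ) := by
      rw [card_compl, Fintype.card_fin]
      have hTn : T.card ≤ n := by
        have := card_le_univ T
        simpa using this
      rw [Nat.cast_sub hTn]
      have hTε : (T.card : ℝ) ≤ (n : ℝ) ^ (-c) * n := by
        refine hT.trans ?_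
        rw [div_le_iff₀ (by positivity)]
        have : (n : ℝ) = ((n : ℝ) ^ (-c) * τ) * n := by rw [hετ, one_mul]
        nlinarith [mul_pos hε0 hnpos, mul_pos (mul_pos hε0 hnpos) (by linarith : (0 : ℝ) < τ)]
      linarith
    refine quarter_of_three ((happ (touchGraph T)ᶜ).1 ⟨Tᶜ, isClique_compl_touch T, hcard⟩) ?_
    intro r hr hr'
    have hr'' : 1 ≤ 1 - (if 1 ≤ f r (touchGraph T)ᶜ then (1 : ℝ) else 0) := hr'
    rw [if_pos hr] at hr''
    linarith

end H630VC
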