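import Pool.Agent.H630VC.FreeModel

/-! Simulation of circuits of monotone real gates (helper630) -/

open scoped Classical
open Finset

namespace H630VC

theorem Prog.le_of_inputs {I : Type*} {inp : Set (I → ℝ)} {l : List (I → ℝ)} (hp : Prog inp l)
    (x y : I) (hxy : ∀ f ∈ inp, f x ≤ f y) : ∀ f ∈ l, f x ≤ f y := by
  induction hp with
  | nil => simp
  | input _ hf ih =>
    intro g hg
    rcases List.mem_cons.1 hg with rfl | hg
    · exact hxy _ hf
    · exact ih g hg
  | gate _ hφ hf hg ih =>
    intro k hk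
    rcases List.mem_cons.1 hk with rfl | hk
    · exact hφ _ _ _ _ (ih _ hf) (ih _ hg)
    · exact ih k hk

theorem Prog.append {I : Type*} {inp : Set (I → ℝ)} {p l : List (I → ℝ)} (hp : Prog inp p)
    (hl : Prog inp l) : Prog inp (p ++ l) := by
  induction hp with
  | nil => exact hl
  | input _ hf ih => exact Prog.input ih hf
  | gate _ hφ hf hg ih =>
    exact Prog.gate ih hφ (List.mem_append_left _ hf) (List.mem_append_left _ hg)

theorem Prog.simulate {I J : Type*} {inp : Set (I → ℝ)} {inp' : Set (J → ℝ)} (ψ : J → I) (K : ℕ)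
    (hK : ∀ f ∈ inp, ∃ p : List (J → ℝ), Prog inp' p ∧ (fun x => f (ψ x)) ∈ p ∧ p.length ≤ K)
    {l : List (I → ℝ)} (hp : Prog inp l) :
    ∃ l' : List (J → ℝ), Prog inp' l' ∧ (∀ f ∈ l, (fun x => f (ψ x)) ∈ l') ∧
      l'.length ≤ (K + 1) * l.length := by
  induction hp with
  | nil => exact ⟨[], Prog.nil, by simp, by simp⟩
  | @input l f _ hf ih =>
    obtain ⟨l', h1, h2, h3⟩ := ih
    obtain ⟨p, g1, g2, g3⟩ := hK _ hf
    refine ⟨p ++ l', g1.append h1, ?_, ?_⟩
    · intro g hg
      rcases List.mem_cons.1 hg with rfl | hg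
      · exact List.mem_append_left _ g2
      · exact List.mem_append_right _ (h2 g hg)
    · rw [List.length_append, List.length_cons]
      nlinarith
  | @gate l φ f g _ hφ hf hg ih =>
    obtain ⟨l', h1, h2, h3⟩ := ih
    refine ⟨_ :: l', Prog.gate (φ := φ) h1 hφ (h2 f hf) (h2 g hg), ?_, ?_⟩
    · intro k hk
      rcases List.mem_cons.1 hk with rfl | hk
      · exact List.mem_cons_self
      · exact List.mem_cons_of_mem _ (h2 k hk)
    · rw [List.length_cons, List.length_cons]
      nlinarith

theorem Prog.toFree {I : Type*} {inp : Set (I → ℝ)} {l : List (I → ℝ)} (hp : Prog inp l) :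
    FProg inp l [] := by
  induction hp with
  | nil => exact FProg.nil
  | input _ hf ih => exact FProg.input ih hf
  | gate _ hφ hf hg ih => exact FProg.gate ih hφ hf hg

/-- conjunctions of `0`-`1` inputs -/
theorem exists_and_prog {J ι : Type*} {inp : Set (J → ℝ)} (h1 : (fun _ => (1 : ℝ)) ∈ inp)
    (b : ι → J → Prop) (hb : ∀ i, (fun x => if b i x then (1 : ℝ) else 0) ∈ inp)
    (s : Finset ι) :
    ∃ p : List (J → ℝ), Prog inp p ∧ (fun x => if ∀ i ∈ s, b i x then (1 : ℝ) else 0) ∈ p ∧
      p.length ≤ 2 * s.card + 1 := by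
  induction s using Finset.induction_on with
  | empty =>
    refine ⟨[fun _ => 1], Prog.input Prog.nil h1, ?_, by simp⟩
    simp
  | insert i s hi ih =>
    obtain ⟨p, g1, g2, g3⟩ := ih
    let φ : ℝ → ℝ → ℝ := fun a b => min a b
    have hφ : Mono2 φ := fun a a' b b' ha hb => min_le_min ha hb
    refine ⟨_ :: (fun x => if b i x then (1 : ℝ) else 0) :: p,
      Prog.gate (φ := φ) (Prog.input g1 (hb i)) hφ List.mem_cons_self
        (List.mem_cons_of_mem _ g2), ?_, ?_⟩
    · refine List.mem_cons.2 (Or.inl ?_)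
      funext x
      simp only [φ, Finset.mem_insert, forall_eq_or_imp]
      by_cases hbi : b i x
      · by_cases hs : ∀ j ∈ s, b j x
        · rw [if_pos ⟨hbi, hs⟩, if_pos hbi, if_pos hs, min_self]
        · rw [if_neg (fun h => hs h.2), if_pos hbi, if_neg hs]
          norm_num
      · rw [if_neg (fun h => hbi h.1), if_neg hbi]
        split_ifs <;> norm_num
    · rw [List.length_cons, List.length_cons, card_insert_of_notMem hi]
      omega

end H630VC
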