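import Pool.Agent.H630VC.LPModel
import Pool.Agent.H630VC.Avg4
import Pool.Agent.H630VC.UG1

/-! Approximate solution of covering linear programs (helper630) -/

open scoped Classical
open Finset

namespace H630VC

/-- the right-hand side of a graph -/
noncomputable def rhs {n : ℕ} (G : SimpleGraph (Fin n)) : Fin n × Fin n → ℝ :=
  fun e => if G.Adj e.1 e.2 then 1 else 0

theorem rhs_inputs {n : ℕ} (f : (Fin n × Fin n → ℝ) → ℝ) (hf : f ∈ covInputs n) :
    (fun G : SimpleGraph (Fin n) => f (rhs G)) ∈ graphInputs (Fin n) := by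
  rcases hf with ⟨e, rfl⟩ | ⟨c, rfl⟩
  · exact Or.inl ⟨e.1, e.2, rfl⟩
  · exact Or.inr ⟨c, rfl⟩

/-- rounding at one half -/
theorem card_half {n : ℕ} (x : Fin n → ℝ) (hx : ∀ i, 0 ≤ x i) :
    ((univ.filter fun i => 1 / 2 ≤ x i).card : ℝ) ≤ 2 * ∑ i, x i := by
  calc ((univ.filter fun i => 1 / 2 ≤ x i).card : ℝ) =
        2 * ∑ i ∈ univ.filter (fun i => 1 / 2 ≤ x i), (1 / 2 : ℝ) := by
        rw [sum_const, nsmul_eq_mul]; ring
    _ ≤ 2 * ∑ i ∈ univ.filter (fun i => 1 / 2 ≤ x i), x i := by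
        apply mul_le_mul_of_nonneg_left _ (by norm_num)
        exact sum_le_sum fun i hi => (mem_filter.1 hi).2
    _ ≤ 2 * ∑ i, x i := by
        apply mul_le_mul_of_nonneg_left _ (by norm_num)
        exact sum_le_sum_of_subset_of_nonneg (subset_univ _) fun i _ _ => hx i

theorem opt_class {n A : ℕ} (β : Fin n → Fin A) (G : SimpleGraph (Fin n)) (hG : classGraph β ≤ G)
    (x y : Fin n → ℝ) (h : CovFeas (rhs G) x y) :
    (n : ℝ) - A ≤ 2 * (∑ i, x i + ∑ j, y j) := by
  obtain ⟨hx, hy, hxy⟩ := h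
  set C : Finset (Fin n) := (univ.filter fun i => 1 / 2 ≤ x i) ∪ (univ.filter fun i => 1 / 2 ≤ y i)
    with hC
  have hcov : IsCover (classGraph β) C := by
    intro u v huv
    have h1 := hxy u v
    simp only [rhs] at h1
    rw [if_pos (hG huv)] at h1
    by_contra hcon
    rw [not_or] at hcon
    have h2 : ¬ (1 / 2 ≤ x u) := fun h => hcon.1 (mem_union_left _ (mem_filter.2 ⟨mem_univ _, h⟩))
    have h3 : ¬ (1 / 2 ≤ y v) := fun h => hcon.2 (mem_union_right _ (mem_filter.2 ⟨mem_univ _, h⟩))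
    linarith
  have h1 := card_cover_classGraph β C hcov
  rw [Fintype.card_fin] at h1
  have h2 : (C.card : ℝ) ≤ 2 * ∑ i, x i + 2 * ∑ j, y j := by
    calc (C.card : ℝ) ≤ ((univ.filter fun i => 1 / 2 ≤ x i).card : ℝ) +
          (univ.filter fun i => 1 / 2 ≤ y i).card := by exact_mod_cast card_union_le _ _
      _ ≤ _ := add_le_add (card_half x hx) (card_half y hy)
  have h3 : (n : ℝ) ≤ C.card + A := by exact_mod_cast h1
  linarith

theorem opt_touch {n : ℕ} (T : Finset (Fin n)) :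
    CovFeas (rhs (touchGraph T)) (fun i => if i ∈ T then 1 else 0)
      (fun j => if j ∈ T then 1 else 0) := by
  refine ⟨fun i => by beta_reduce; split_ifs <;> norm_num,
    fun i => by beta_reduce; split_ifs <;> norm_num, ?_⟩
  intro i j
  simp only [rhs]
  by_cases h : (touchGraph T).Adj i j
  · rw [if_pos h]
    rcases h.2 with h1 | h1
    · rw [if_pos h1]
      split_ifs <;> norm_num
    · rw [if_pos h1]
      split_ifs <;> norm_num
  · rw [if_neg h]
    split_ifs <;> norm_num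

theorem asymp_lp (η : ℝ) (hη : 0 < η) (hη2 : η ≤ 1 / 2) :
    ∃ N : ℕ, ∀ n : ℕ, N ≤ n → ∀ ρ : ℝ, 1 ≤ ρ → ∀ (R : Type) [Fintype R] [Nonempty R]
      (l : R → List ((Fin n × Fin n → ℝ) → ℝ))
      (q : R → List (List (((Fin n × Fin n → ℝ) → ℝ) × ℝ))),
      (∀ r, FProg (covInputs n) (l r) (q r)) → RApproxOpt ρ l →
      (∀ r, ρ * combos (q r) ≤ (n : ℝ) ^ (1 / 2 - η)) →
      ∃ r, (2 : ℝ) ^ ((n : ℝ) ^ (η / 4)) ≤ (l r).length + wires (q r) := by
  obtain ⟨N, hN⟩ := asymp_params (2 * (16 * 10 ^ 5)) (1 / 2 - η) (η / 4) (η / 4) (by norm_num)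
    (by positivity) (by positivity) (by linarith)
  refine ⟨N, fun n hn ρ hρ R _ _ l q hp hs hP => ?_⟩
  obtain ⟨hn2, L, hL, hY, hsz⟩ := hN n hn
  by_contra hlt
  push Not at hlt
  have hρ0 : 0 < ρ := by linarith
  set P : ℕ := ⌊(n : ℝ) ^ (1 / 2 - η) / ρ⌋₊ with hPdef
  have hcomb : ∀ r, combos (q r) ≤ P := by
    intro r
    apply Nat.le_floor
    rw [le_div_iff₀ hρ0]
    have := hP r
    linarith
  have hP1 : 1 ≤ P := by
    obtain ⟨r⟩ := ‹Nonempty R›
    exact (one_le_prod (q r)).trans (hcomb r)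
  have hPle : ρ * (P : ℝ) ≤ (n : ℝ) ^ (1 / 2 - η) := by
    have h1 : (P : ℝ) ≤ (n : ℝ) ^ (1 / 2 - η) / ρ := Nat.floor_le (by positivity)
    rw [le_div_iff₀ hρ0] at h1
    linarith
  obtain ⟨f, hf, happ⟩ := hs
  have hn0 : (2 : ℝ) ≤ n := by exact_mod_cast hn2
  have h01 : ∀ G : SimpleGraph (Fin n), ∀ e, rhs G e = 0 ∨ rhs G e = 1 := by
    intro G e
    unfold rhs
    split_ifs
    · exact Or.inr rfl
    · exact Or.inl rfl
  refine engine2 n L P 1 (2 * ρ) hL hP1 le_rfl (by linarith) ?_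
    (fun r => (l r).map fun f => fun G => f (rhs G))
    (fun r => (q r).map fun w => w.map fun p => ((fun G => p.1 (rhs G)), p.2))
    (fun r G => f r (rhs G))
    (fun r => FProg.comap (inp' := graphInputs (Fin n)) (fun G => rhs G) rhs_inputs (hp r))
    (fun r => List.mem_map.2 ⟨f r, hf r, rfl⟩) ?_ ?_ (7 * n / 16) ?_ ?_
  · calc 16 * 10 ^ 5 * (1 * (2 * ρ)) * (L : ℝ) ^ 3 * ((Nat.log 2 n : ℝ) + 1) * P
        = 2 * (16 * 10 ^ 5) * (L : ℝ) ^ 3 * ((Nat.log 2 n : ℝ) + 1) * (ρ * P) := by ring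
      _ ≤ _ := hY _ (by positivity) hPle
  · intro r
    rw [combos_map]
    exact hcomb r
  · intro r
    rw [List.length_map, wires_map]
    have h1 := hsz ((l r).length + wires (q r)) (by push_cast; exact hlt r)
    omega
  · intro G A β hA hG
    refine (happ (rhs G) (h01 G)).trans (Nat.mul_le_mul_left _ (card_le_card ?_))
    intro r hr
    rw [mem_filter] at hr ⊢
    refine ⟨mem_univ _, ?_⟩
    obtain ⟨x, y, hxy, hle⟩ := hr.2.1
    have h1 := opt_class β G hG x y hxy
    rw [mul_one] at hA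
    linarith
  · intro T hT
    refine quarter_of_three (happ (rhs (touchGraph T)) (h01 _)) ?_
    intro r hr hr'
    have e1 := hr.2 _ _ (opt_touch T)
    have e2 : (∑ i : Fin n, if i ∈ T then (1 : ℝ) else 0) = T.card := by
      rw [Finset.sum_ite_mem, univ_inter]
      simp
    rw [e2] at e1
    have e4 : ρ * ((T.card : ℝ) + T.card) ≤ n / 4 := by
      calc ρ * ((T.card : ℝ) + T.card) ≤ ρ * (n / (4 * (2 * ρ)) + n / (4 * (2 * ρ))) := by gcongr
        _ = n / 4 := by field_simp; ring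
    linarith

/-- the bipartite graph of a right-hand side -/
def bgraph {n : ℕ} (b : Fin n × Fin n → ℝ) : SimpleGraph (Fin (n + n)) where
  Adj u v := ∃ i j : Fin n, 1 ≤ b (i, j) ∧ ((u = Fin.castAdd n i ∧ v = Fin.natAdd n j) ∨
    (v = Fin.castAdd n i ∧ u = Fin.natAdd n j))
  symm := ⟨by
    rintro u v ⟨i, j, h, h1 | h1⟩
    · exact ⟨i, j, h, Or.inr h1⟩
    · exact ⟨i, j, h, Or.inl h1⟩⟩
  loopless := ⟨by
    rintro u ⟨i, j, h, ⟨h1, h2⟩ | ⟨h1, h2⟩⟩
    · rw [h1] at h2
      have := congrArg Fin.val h2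
      simp only [Fin.val_castAdd, Fin.val_natAdd] at this
      omega
    · rw [h1] at h2
      have := congrArg Fin.val h2
      simp only [Fin.val_castAdd, Fin.val_natAdd] at this
      omega⟩

theorem bgraph_simulate {n : ℕ} (f : SimpleGraph (Fin (n + n)) → ℝ)
    (hf : f ∈ graphInputs (Fin (n + n))) :
    ∃ p : List ((Fin n × Fin n → ℝ) → ℝ), Prog (covInputs n) p ∧
      (fun b => f (bgraph b)) ∈ p ∧ p.length ≤ 2 := by
  have hconst : ∀ c : ℝ, (fun b => f (bgraph b)) = (fun _ : Fin n × Fin n → ℝ => c) →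
      ∃ p : List ((Fin n × Fin n → ℝ) → ℝ), Prog (covInputs n) p ∧
      (fun b => f (bgraph b)) ∈ p ∧ p.length ≤ 2 := by
    intro c hc
    rw [hc]
    exact ⟨[fun _ => c], Prog.input Prog.nil (Or.inr ⟨c, rfl⟩), by simp, by simp⟩
  rcases hf with ⟨u, v, rfl⟩ | ⟨c, rfl⟩
  · by_cases h : ∃ i j : Fin n, (u = Fin.castAdd n i ∧ v = Fin.natAdd n j) ∨
      (v = Fin.castAdd n i ∧ u = Fin.natAdd n j)
    · obtain ⟨i, j, hij⟩ := h
      let φ : ℝ → ℝ → ℝ := fun a _ => if 1 ≤ a then 1 else 0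
      have hφ : Mono2 φ := by
        intro a a' b b' ha _
        simp only [φ]
        split_ifs with h1 h2 h2
        · exact le_rfl
        · exact absurd (h1.trans ha) h2
        · exact zero_le_one
        · exact le_rfl
      refine ⟨[fun b => φ (b (i, j)) (b (i, j)), fun b => b (i, j)],
        Prog.gate (φ := φ) (f := fun b : Fin n × Fin n → ℝ => b (i, j))
          (g := fun b : Fin n × Fin n → ℝ => b (i, j))
          (Prog.input Prog.nil (Or.inl ⟨(i, j), rfl⟩)) hφ List.mem_cons_self List.mem_cons_self,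
        ?_, by simp⟩
      refine List.mem_cons.2 (Or.inl ?_)
      funext b
      simp only [φ, edgeBit]
      have hiff : (bgraph b).Adj u v ↔ 1 ≤ b (i, j) := by
        constructor
        · rintro ⟨i', j', h1, h2⟩
          have hij' : i' = i ∧ j' = j := by
            rcases hij with ⟨a1, a2⟩ | ⟨a1, a2⟩ <;> rcases h2 with ⟨b1, b2⟩ | ⟨b1, b2⟩
            · rw [a1] at b1; rw [a2] at b2
              have e1 := congrArg Fin.val b1
              have e2 := congrArg Fin.val b2
              simp only [Fin.val_castAdd, Fin.val_natAdd] at e1 e2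
              exact ⟨Fin.ext e1.symm, Fin.ext (by omega)⟩
            · rw [a2] at b1
              have e1 := congrArg Fin.val b1
              simp only [Fin.val_castAdd, Fin.val_natAdd] at e1
              omega
            · rw [a2] at b1
              have e1 := congrArg Fin.val b1
              simp only [Fin.val_castAdd, Fin.val_natAdd] at e1
              omega
            · rw [a1] at b1; rw [a2] at b2
              have e1 := congrArg Fin.val b1
              have e2 := congrArg Fin.val b2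
              simp only [Fin.val_castAdd, Fin.val_natAdd] at e1 e2
              exact ⟨Fin.ext e1.symm, Fin.ext (by omega)⟩
          rw [hij'.1, hij'.2] at h1
          exact h1
        · intro h1
          exact ⟨i, j, h1, hij⟩
      by_cases hb : 1 ≤ b (i, j)
      · rw [if_pos hb, if_pos (hiff.2 hb)]
      · rw [if_neg hb, if_neg (fun h => hb (hiff.1 h))]
    · apply hconst 0
      funext b
      refine if_neg ?_
      rintro ⟨i, j, -, hij⟩
      exact h ⟨i, j, hij⟩
  · exact hconst c rfl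

theorem upper_lp (n : ℕ) (hn : 1 ≤ n) :
    ∃ (l : List ((Fin n × Fin n → ℝ) → ℝ)) (f : (Fin n × Fin n → ℝ) → ℝ),
      Prog (covInputs n) l ∧ f ∈ l ∧ l.length ≤ 3 * (n + n) ^ 12 ∧
      ∀ b : Fin n × Fin n → ℝ, (∀ e, b e = 0 ∨ b e = 1) →
        ApproxOpt (32 * Real.sqrt (((n + n : ℕ) : ℝ) * Real.log ((n + n : ℕ) : ℝ))) f b := by
  obtain ⟨l0, f0, h1, h2, h3, h4⟩ := upper_bound (n + n) (by omega)
  obtain ⟨l, g1, g2, g3⟩ := Prog.simulate (bgraph (n := n)) 2 bgraph_simulate h1
  refine ⟨l, fun b => f0 (bgraph b), g1, g2 f0 h2, ?_, ?_⟩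
  · refine g3.trans ?_
    exact Nat.mul_le_mul (by norm_num) h3
  · intro b hb
    obtain ⟨⟨C, hC, hCf⟩, h5⟩ := h4 (bgraph b)
    refine ⟨⟨fun i => if Fin.castAdd n i ∈ C then 1 else 0,
      fun j => if Fin.natAdd n j ∈ C then 1 else 0, ⟨?_, ?_, ?_⟩, ?_⟩, ?_⟩
    · intro i; beta_reduce; split_ifs <;> norm_num
    · intro i; beta_reduce; split_ifs <;> norm_num
    · intro i j
      beta_reduce
      rcases hb (i, j) with h | h
      · rw [h]
        split_ifs <;> norm_num
      · rw [h]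
        rcases hC (Fin.castAdd n i) (Fin.natAdd n j) ⟨i, j, h.ge, Or.inl ⟨rfl, rfl⟩⟩ with h6 | h6
        · rw [if_pos h6]
          split_ifs <;> norm_num
        · rw [if_pos h6]
          split_ifs <;> norm_num
    · refine le_trans (le_of_eq ?_) hCf
      have e1 : (C.card : ℝ) = ∑ v : Fin (n + n), if v ∈ C then (1 : ℝ) else 0 := by
        rw [Finset.sum_ite_mem, univ_inter]
        simp
      rw [e1, Fin.sum_univ_add]
    · intro x y hxy
      obtain ⟨hx, hy, hxy⟩ := hxy
      set C' : Finset (Fin (n + n)) := ((univ.filter fun i => 1 / 2 ≤ x i).image (Fin.castAdd n)) ∪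
        ((univ.filter fun i => 1 / 2 ≤ y i).image (Fin.natAdd n)) with hC'
      have hcov : ∀ u v, (bgraph b).Adj u v → u ∈ C' ∨ v ∈ C' := by
        have key : ∀ i j : Fin n, 1 ≤ b (i, j) → Fin.castAdd n i ∈ C' ∨ Fin.natAdd n j ∈ C' := by
          intro i j hij
          have h6 := hxy i j
          by_contra hcon
          rw [not_or] at hcon
          have h7 : ¬ (1 / 2 ≤ x i) := fun h => hcon.1 (mem_union_left _
            (mem_image_of_mem _ (mem_filter.2 ⟨mem_univ _, h⟩)))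
          have h8 : ¬ (1 / 2 ≤ y j) := fun h => hcon.2 (mem_union_right _
            (mem_image_of_mem _ (mem_filter.2 ⟨mem_univ _, h⟩)))
          linarith
        rintro u v ⟨i, j, h6, ⟨rfl, rfl⟩ | ⟨rfl, rfl⟩⟩
        · exact key i j h6
        · exact (key i j h6).symm
      have h6 := h5 C' hcov
      have h7 : (C'.card : ℝ) ≤ 2 * (∑ i, x i + ∑ j, y j) := by
        calc (C'.card : ℝ) ≤ ((univ.filter fun i => 1 / 2 ≤ x i).card : ℝ) +
              (univ.filter fun i => 1 / 2 ≤ y i).card := by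
              exact_mod_cast (card_union_le _ _).trans (Nat.add_le_add card_image_le card_image_le)
          _ ≤ 2 * ∑ i, x i + 2 * ∑ j, y j := add_le_add (card_half x hx) (card_half y hy)
          _ = _ := by ring
      calc f0 (bgraph b) ≤ 16 * Real.sqrt (((n + n : ℕ) : ℝ) * Real.log ((n + n : ℕ) : ℝ)) *
            C'.card := h6
        _ ≤ 16 * Real.sqrt (((n + n : ℕ) : ℝ) * Real.log ((n + n : ℕ) : ℝ)) *
            (2 * (∑ i, x i + ∑ j, y j)) := by gcongr
        _ = _ := by ring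

end H630VC
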