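import Pool.Agent.H630VC.FreeModel

/-!
# Approximate solution of covering linear programs: the definitions
-/

open scoped Classical
open Finset

namespace H630VC

/-- the system of linear inequalities `x ≥ 0`, `y ≥ 0`, `x i + y j ≥ b (i, j)` -/
def CovFeas {n : ℕ} (b : Fin n × Fin n → ℝ) (x y : Fin n → ℝ) : Prop :=
  (∀ i, 0 ≤ x i) ∧ (∀ j, 0 ≤ y j) ∧ ∀ i j, b (i, j) ≤ x i + y j

/-- `f b` lies between the least value of `∑ x i + ∑ y j` over the solutions `(x, y)` of the system
and `ρ` times this value -/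
def ApproxOpt {n : ℕ} (ρ : ℝ) (f : (Fin n × Fin n → ℝ) → ℝ) (b : Fin n × Fin n → ℝ) : Prop :=
  (∃ x y : Fin n → ℝ, CovFeas b x y ∧ ∑ i, x i + ∑ j, y j ≤ f b) ∧
    ∀ x y : Fin n → ℝ, CovFeas b x y → f b ≤ ρ * (∑ i, x i + ∑ j, y j)

/-- the inputs of the algorithms: the real numbers `b (i, j)`, and real constants -/
def covInputs (n : ℕ) : Set ((Fin n × Fin n → ℝ) → ℝ) :=
  {f | (∃ e : Fin n × Fin n, f = fun b => b e) ∨ ∃ c : ℝ, f = fun _ => c}

/-- a randomised algorithm, that is a finite family `l` of algorithms indexed by the random strings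
`r` in `R`, approximates the optimum within the factor `ρ`: it has a step whose result is for each
right-hand side `b` with entries zero and one such an approximation, for at least three quarters of
the random strings -/
def RApproxOpt {R : Type*} [Fintype R] {n : ℕ} (ρ : ℝ)
    (l : R → List ((Fin n × Fin n → ℝ) → ℝ)) : Prop :=
  ∃ f : R → (Fin n × Fin n → ℝ) → ℝ, (∀ r, f r ∈ l r) ∧
    ∀ b : Fin n × Fin n → ℝ, (∀ e, b e = 0 ∨ b e = 1) →
      3 * Fintype.card R ≤ 4 * (univ.filter fun r => ApproxOpt ρ (f r) b).card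

end H630VC
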