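import Pool.Agent.H630VC.PMModel
import Pool.Agent.H630VC.Avg5

/-! Perfect matchings against small matchings (helper630) -/

open scoped Classical
open Finset

namespace H630VC

/-- the bipartite graph of a graph: the bipartite double cover of the graph together with all pairs
that touch `U` -/
def pmHost {n : ℕ} (U : Finset (Fin n)) (G : SimpleGraph (Fin n)) : Fin n → Fin n → Prop :=
  fun i j => i ≠ j ∧ (G.Adj i j ∨ i ∈ U ∨ j ∈ U)

theorem pmHost_inputs {n : ℕ} (U : Finset (Fin n)) (f : (Fin n → Fin n → Prop) → ℝ)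
    (hf : f ∈ bipInputs n) : (fun G => f (pmHost U G)) ∈ graphInputs (Fin n) := by
  rcases hf with ⟨i, j, rfl⟩ | ⟨c, rfl⟩
  · by_cases hij : i = j
    · refine Or.inr ⟨0, ?_⟩
      funext G
      exact if_neg (fun h => h.1 hij)
    · by_cases hU : i ∈ U ∨ j ∈ U
      · refine Or.inr ⟨1, ?_⟩
        funext G
        exact if_pos ⟨hij, Or.inr hU⟩
      · refine Or.inl ⟨i, j, ?_⟩
        funext G
        unfold edgeBit
        by_cases h : G.Adj i j
        · rw [if_pos h]; exact if_pos ⟨hij, Or.inl h⟩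
        · rw [if_neg h]
          refine if_neg ?_
          rintro ⟨-, h1 | h1⟩
          · exact h h1
          · exact hU h1
  · exact Or.inr ⟨c, rfl⟩

/-- if the number of classes is at most the size of `U` then there is a perfect matching -/
theorem pmHost_perfect {n A : ℕ} (hn : 2 ≤ n) (U : Finset (Fin n)) (β : Fin n → Fin A)
    (G : SimpleGraph (Fin n)) (hG : classGraph β ≤ G) (hA : A ≤ U.card) :
    HasPerfect (pmHost U G) := by
  let t : Fin n → Finset (Fin n) := fun i => univ.filter fun j => pmHost U G i j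
  have ht : ∀ i j, j ∈ t i ↔ pmHost U G i j := fun i j => by simp [t]
  have hall : ∀ s : Finset (Fin n), s.card ≤ (s.biUnion t).card := by
    intro s
    rcases s.eq_empty_or_nonempty with rfl | hs
    · simp
    by_cases hsU : ∃ u ∈ s, u ∈ U
    · obtain ⟨u, hu, huU⟩ := hsU
      have h1 : univ.erase u ⊆ s.biUnion t := by
        intro j hj
        rw [mem_biUnion]
        refine ⟨u, hu, ?_⟩
        rw [ht]
        exact ⟨(ne_of_mem_erase hj).symm, Or.inr (Or.inl huU)⟩
      by_cases hsn : s = univ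
      · have h2 : s.biUnion t = univ := by
          ext j
          simp only [mem_univ, iff_true]
          by_cases hj : j = u
          · subst hj
            obtain ⟨i, hi⟩ : ∃ i : Fin n, i ≠ j := by
              by_contra hcon
              push Not at hcon
              have h0 := hcon ⟨0, by omega⟩
              have h1 := hcon ⟨1, by omega⟩
              rw [← h1] at h0
              simp at h0
            rw [mem_biUnion]
            refine ⟨i, by rw [hsn]; exact mem_univ _, ?_⟩
            rw [ht]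
            exact ⟨hi, Or.inr (Or.inr huU)⟩
          · exact h1 (mem_erase.2 ⟨hj, mem_univ _⟩)
        rw [h2]
        exact card_le_univ s
      · have h2 := card_le_card h1
        rw [card_erase_of_mem (mem_univ u), card_univ, Fintype.card_fin] at h2
        have h3 : s.card < n := by
          have := Finset.card_lt_card (Finset.ssubset_univ_iff.2 hsn)
          simpa using this
        omega
    · push Not at hsU
      let s' := s.filter fun j => ∃ i ∈ s, i ≠ j ∧ β i = β j
      have hU : U ⊆ s.biUnion t := by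
        intro u hu
        obtain ⟨i, hi⟩ := hs
        rw [mem_biUnion]
        refine ⟨i, hi, ?_⟩
        rw [ht]
        refine ⟨?_, Or.inr (Or.inr hu)⟩
        rintro rfl
        exact hsU i hi hu
      have hs' : s' ⊆ s.biUnion t := by
        intro j hj
        obtain ⟨-, i, hi, hne, hβ⟩ := mem_filter.1 hj
        rw [mem_biUnion]
        refine ⟨i, hi, ?_⟩
        rw [ht]
        exact ⟨hne, Or.inl (hG ⟨hne, hβ⟩)⟩
      have hdis : Disjoint U s' := by
        rw [disjoint_left]
        intro j hj hj'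
        exact hsU j (mem_filter.1 hj').1 hj
      have h1 : U.card + s'.card ≤ (s.biUnion t).card := by
        rw [← card_union_of_disjoint hdis]
        exact card_le_card (union_subset hU hs')
      have h2 : (s.filter fun j => ¬ ∃ i ∈ s, i ≠ j ∧ β i = β j).card ≤ A := by
        have : (s.filter fun j => ¬ ∃ i ∈ s, i ≠ j ∧ β i = β j).card ≤
            (univ : Finset (Fin A)).card := by
          apply card_le_card_of_injOn β (fun _ _ => mem_coe.2 (mem_univ _))
          intro j hj j' hj' h
          by_contra hne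
          exact (mem_filter.1 hj').2 ⟨j, (mem_filter.1 hj).1, hne, h⟩
        simpa using this
      have h3 := card_filter_add_card_filter_not (s := s)
        (fun j => ∃ i ∈ s, i ≠ j ∧ β i = β j)
      have h4 : s'.card = (s.filter fun j => ∃ i ∈ s, i ≠ j ∧ β i = β j).card := rfl
      omega
  obtain ⟨π, hinj, hπ⟩ := (all_card_le_biUnion_card_iff_exists_injective t).1 hall
  refine ⟨Equiv.ofBijective π (Finite.injective_iff_bijective.1 hinj), fun i => ?_⟩
  exact (ht _ _).1 (hπ i)

/-- matchings are small if all edges touch a small set -/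
theorem pmHost_small {n : ℕ} (U T : Finset (Fin n)) (b : ℝ) (hb : 2 * (T.card + U.card : ℝ) ≤ b) :
    MatchingsLe b (pmHost U (touchGraph T)) := by
  intro M hM hinj
  have h1 : ∀ e ∈ M, e.1 ∈ T ∪ U ∨ e.2 ∈ T ∪ U := by
    intro e he
    obtain ⟨-, h | h | h⟩ := hM e he
    · rcases h.2 with h | h
      · exact Or.inl (mem_union_left _ h)
      · exact Or.inr (mem_union_left _ h)
    · exact Or.inl (mem_union_right _ h)
    · exact Or.inr (mem_union_right _ h)
  have h2 : M ⊆ (M.filter fun e => e.1 ∈ T ∪ U) ∪ (M.filter fun e => e.2 ∈ T ∪ U) := by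
    intro e he
    rw [mem_union, mem_filter, mem_filter]
    rcases h1 e he with h | h
    · exact Or.inl ⟨he, h⟩
    · exact Or.inr ⟨he, h⟩
  have h3 : (M.filter fun e => e.1 ∈ T ∪ U).card ≤ (T ∪ U).card := by
    apply card_le_card_of_injOn (fun e => e.1)
    · intro e he
      exact (mem_filter.1 he).2
    · intro e he e' he' h
      exact hinj e (mem_filter.1 he).1 e' (mem_filter.1 he').1 (Or.inl h)
  have h4 : (M.filter fun e => e.2 ∈ T ∪ U).card ≤ (T ∪ U).card := by
    apply card_le_card_of_injOn (fun e => e.2)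
    · intro e he
      exact (mem_filter.1 he).2
    · intro e he e' he' h
      exact hinj e (mem_filter.1 he).1 e' (mem_filter.1 he').1 (Or.inr h)
  have h5 := (card_le_card h2).trans (card_union_le _ _)
  have h6 := card_union_le T U
  have h7 : M.card ≤ 2 * (T.card + U.card) := by omega
  calc (M.card : ℝ) ≤ ((2 * (T.card + U.card) : ℕ) : ℝ) := by exact_mod_cast h7
    _ = 2 * (T.card + U.card : ℝ) := by push_cast; ring
    _ ≤ b := hb

theorem asymp_matching (α c ν : ℝ) (hα : 0 ≤ α) (hc : 0 ≤ c) (hν : 0 < ν)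
    (h : 2 * α + 3 * c + 6 * ν < 1) :
    ∃ N : ℕ, ∀ n : ℕ, N ≤ n → ∀ (R : Type) [Fintype R] [Nonempty R]
      (l : R → List ((Fin n → Fin n → Prop) → ℝ))
      (q : R → List (List (((Fin n → Fin n → Prop) → ℝ) × ℝ))),
      (∀ r, FProg (bipInputs n) (l r) (q r)) → RSepMatching ((n : ℝ) ^ (1 - c)) l →
      (∀ r, (combos (q r) : ℝ) ≤ (n : ℝ) ^ α) →
      ∃ r, (2 : ℝ) ^ ((n : ℝ) ^ ν) ≤ (l r).length + wires (q r) := by
  set κ : ℝ := (2 * α + 2 * c + 6 * ν + (1 - c)) / 2 with hκdef
  have hκ1 : 2 * α + 2 * c + 6 * ν < κ := by rw [hκdef]; linarith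
  have hκ2 : κ < 1 - c := by rw [hκdef]; linarith
  obtain ⟨N, hN⟩ := asymp_params3 (4 * 10 ^ 5) (α + c) ν (κ / 2 - (α + c) - 3 * ν) (κ / 2)
    (by norm_num) hν (by linarith) (by linarith)
  obtain ⟨N1, hN1⟩ := Filter.eventually_atTop.1 (((tendsto_rpow_atTop
    (show (0 : ℝ) < 1 - c by linarith)).comp
    (tendsto_natCast_atTop_atTop (R := ℝ))).eventually_ge_atTop 8)
  obtain ⟨N2, hN2⟩ := Filter.eventually_atTop.1 (((tendsto_rpow_atTop
    (show (0 : ℝ) < 1 - c - κ by linarith)).comp
    (tendsto_natCast_atTop_atTop (R := ℝ))).eventually_ge_atTop 4)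
  refine ⟨max N (max N1 N2), fun n hn R _ _ l q hp hs hP => ?_⟩
  obtain ⟨hn2, L, hL, hY, hsz⟩ := hN n ((le_max_left _ _).trans hn)
  have hn8 := hN1 n (((le_max_left _ _).trans (le_max_right _ _)).trans hn)
  have hn4 := hN2 n (((le_max_right _ _).trans (le_max_right _ _)).trans hn)
  simp only [Function.comp] at hn8 hn4
  have hn1R : (1 : ℝ) ≤ n := by
    have : 1 ≤ n := by omega
    exact_mod_cast this
  have hnpos : (0 : ℝ) < n := by linarith
  by_contra hlt
  push Not at hlt
  set P : ℕ := ⌊(n : ℝ) ^ α⌋₊ with hPdef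
  have hcomb : ∀ r, combos (q r) ≤ P := fun r => Nat.le_floor (hP r)
  have hP1 : 1 ≤ P := by
    obtain ⟨r⟩ := ‹Nonempty R›
    exact (one_le_prod (q r)).trans (hcomb r)
  have hPle : (P : ℝ) ≤ (n : ℝ) ^ α := Nat.floor_le (by positivity)
  set τ : ℝ := (n : ℝ) ^ c with hτ
  have hτ1 : 1 ≤ τ := Real.one_le_rpow hn1R hc
  -- the set `U`
  have hκn : ⌊(n : ℝ) ^ κ⌋₊ ≤ n := by
    apply Nat.floor_le_of_le
    calc (n : ℝ) ^ κ ≤ (n : ℝ) ^ (1 : ℝ) :=
          Real.rpow_le_rpow_of_exponent_le hn1R (by linarith)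
      _ = n := Real.rpow_one _
  obtain ⟨U, -, hU⟩ := exists_subset_card_eq (s := (univ : Finset (Fin n)))
    (n := ⌊(n : ℝ) ^ κ⌋₊) (by simpa using hκn)
  have hUle : (U.card : ℝ) ≤ (n : ℝ) ^ κ := by
    rw [hU]
    exact Nat.floor_le (by positivity)
  obtain ⟨f, hf, happ⟩ := hs
  refine engine3 n L P τ ((n : ℝ) ^ κ) hL hP1 hτ1 ?_ ?_
    (fun r => (l r).map fun f => fun G => f (pmHost U G))
    (fun r => (q r).map fun w => w.map fun p => ((fun G => p.1 (pmHost U G)), p.2))
    (fun r G => f r (pmHost U G))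
    (fun r => FProg.comap (inp' := graphInputs (Fin n)) (fun G => pmHost U G)
      (pmHost_inputs U) (hp r))
    (fun r => List.mem_map.2 ⟨f r, hf r, rfl⟩) ?_ ?_ 1 ?_ ?_
  · calc 8 * τ ≤ (n : ℝ) ^ (1 - c) * τ := by gcongr
      _ = n := by
          rw [hτ, ← Real.rpow_add hnpos]
          simp
  · have h1 := hY (P * τ) (by positivity) (by
      rw [Real.rpow_add hnpos, ← hτ]
      gcongr)
    have h2 : ((n : ℝ) ^ (κ / 2)) ^ 2 = (n : ℝ) ^ κ := by
      rw [← Real.rpow_natCast, ← Real.rpow_mul hnpos.le]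
      congr 1
      push_cast
      ring
    rw [← h2]
    apply pow_le_pow_left₀ (by positivity)
    calc 4 * 10 ^ 5 * τ * (L : ℝ) ^ 3 * ((Nat.log 2 n : ℝ) + 1) * P
        = 4 * 10 ^ 5 * (L : ℝ) ^ 3 * ((Nat.log 2 n : ℝ) + 1) * (P * τ) := by ring
      _ ≤ _ := h1
  · intro r
    rw [combos_map]
    exact hcomb r
  · intro r
    rw [List.length_map, wires_map (fun G => pmHost U G) (q r)]
    have h1 := hsz ((l r).length + wires (q r)) (by push_cast; exact hlt r)
    omega
  · intro G A β hA hG
    refine ((happ (pmHost U G)).1 (pmHost_perfect hn2 U β G hG ?_)).trans le_rfl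
    rw [hU]
    exact Nat.le_floor hA
  · intro T hT
    have hsmall : MatchingsLe ((n : ℝ) ^ (1 - c)) (pmHost U (touchGraph T)) := by
      apply pmHost_small
      have e1 : (n : ℝ) = (n : ℝ) ^ (1 - c) * τ := by
        rw [hτ, ← Real.rpow_add hnpos]
        simp
      have e2 : (n : ℝ) / (4 * τ) = (n : ℝ) ^ (1 - c) / 4 := by
        rw [div_eq_div_iff (by positivity) (by norm_num)]
        nth_rw 1 [e1]
        ring
      have e3 : (n : ℝ) ^ κ ≤ (n : ℝ) ^ (1 - c) / 4 := by
        have : (n : ℝ) ^ (1 - c) = (n : ℝ) ^ (1 - c - κ) * (n : ℝ) ^ κ := by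
          rw [← Real.rpow_add hnpos]
          ring_nf
        rw [this]
        have h0 : 0 < (n : ℝ) ^ κ := by positivity
        nlinarith
      rw [e2] at hT
      linarith
    refine quarter_of_three ((happ _).2 hsmall) ?_
    intro r hr hr'
    exact absurd hr (not_lt.2 hr')

end H630VC
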