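import Pool.Agent.H630VC.FreeModel

/-!
# Circuits that tell bipartite graphs with a perfect matching from bipartite graphs with only small
matchings: the definitions
-/

open scoped Classical
open Finset

namespace H630VC

/-- the inputs of the circuits on bipartite graphs with `n + n` vertices (`E i j` says that the left
vertex `i` and the right vertex `j` are adjacent): adjacency bits and real constants -/
def bipInputs (n : ℕ) : Set ((Fin n → Fin n → Prop) → ℝ) :=
  {f | (∃ i j : Fin n, f = fun E => if E i j then 1 else 0) ∨ ∃ c : ℝ, f = fun _ => c}

/-- the bipartite graph has a perfect matching -/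
def HasPerfect {n : ℕ} (E : Fin n → Fin n → Prop) : Prop :=
  ∃ π : Equiv.Perm (Fin n), ∀ i, E i (π i)

/-- every matching has at most `b` edges -/
def MatchingsLe {n : ℕ} (b : ℝ) (E : Fin n → Fin n → Prop) : Prop :=
  ∀ M : Finset (Fin n × Fin n), (∀ e ∈ M, E e.1 e.2) →
    (∀ e ∈ M, ∀ e' ∈ M, e.1 = e'.1 ∨ e.2 = e'.2 → e = e') → (M.card : ℝ) ≤ b

/-- a randomised circuit, that is a finite family `l` of circuits indexed by the random strings `r`
in `R`, separates the bipartite graphs with a perfect matching from those in which every matching
has at most `b` edges: its output is at least one on the former and less than one on the latter, in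
both cases for at least three quarters of the random strings -/
def RSepMatching {R : Type*} [Fintype R] {n : ℕ} (b : ℝ)
    (l : R → List ((Fin n → Fin n → Prop) → ℝ)) : Prop :=
  ∃ f : R → (Fin n → Fin n → Prop) → ℝ, (∀ r, f r ∈ l r) ∧ ∀ E : Fin n → Fin n → Prop,
    (HasPerfect E → 3 * Fintype.card R ≤ 4 * (univ.filter fun r => 1 ≤ f r E).card) ∧
    (MatchingsLe b E → 3 * Fintype.card R ≤ 4 * (univ.filter fun r => f r E < 1).card)

end H630VC
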