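import Mathlib

/-! Cutting the classes of a colouring into blocks of size `r` (helper630) -/

open scoped Classical
open Finset

namespace H630VC

theorem exists_blocks {n A r : ℕ} (hr : 1 ≤ r) (β : Fin n → Fin A) :
    ∃ (blk : Fin n → Fin r → Fin n) (NE : Finset (Fin n)),
      (∀ v, ∃ i, blk v i = v) ∧ (∀ v i, β (blk v i) = β v) ∧
      (∀ v ∈ NE, Function.Injective (blk v) ∧ ∀ i, blk v i ∈ NE ∧ blk (blk v i) = blk v) ∧
      n ≤ NE.card + A * r := by
  rcases Nat.eq_zero_or_pos n with hn | hn
  · subst hn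
    exact ⟨fun v => v.elim0, ∅, fun v => v.elim0, fun v => v.elim0, by simp, by omega⟩
  let d0 : Fin n := ⟨0, hn⟩
  let cl : Fin A → Finset (Fin n) := fun c => univ.filter fun v => β v = c
  have hcl : ∀ v c, v ∈ cl c ↔ β v = c := fun v c => by simp [cl]
  let s : Fin A → ℕ := fun c => (cl c).card
  let e : ∀ c, {v // v ∈ cl c} ≃ Fin (s c) := fun c => (cl c).equivFin
  let at' : Fin A → ℕ → Fin n := fun c p => if h : p < s c then ((e c).symm ⟨p, h⟩).1 else d0
  let posc : Fin A → Fin n → ℕ := fun c v => if h : v ∈ cl c then (e c ⟨v, h⟩ : ℕ) else 0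
  let pos : Fin n → ℕ := fun v => posc (β v) v
  have hat : ∀ c p, p < s c → β (at' c p) = c := by
    intro c p h
    simp only [at', dif_pos h]
    exact (hcl _ _).1 ((e c).symm ⟨p, h⟩).2
  have hpos : ∀ c p, p < s c → pos (at' c p) = p := by
    intro c p h
    have h1 := hat c p h
    simp only [pos]
    rw [h1]
    have h2 : at' c p ∈ cl c := (hcl _ _).2 h1
    simp only [posc, dif_pos h2]
    have h3 : (⟨at' c p, h2⟩ : {v // v ∈ cl c}) = (e c).symm ⟨p, h⟩ := by
      apply Subtype.ext
      simp only [at', dif_pos h]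
    rw [h3, Equiv.apply_symm_apply]
  have hmem : ∀ v, v ∈ cl (β v) := fun v => (hcl _ _).2 rfl
  have hlt : ∀ v, pos v < s (β v) := by
    intro v
    simp only [pos, posc, dif_pos (hmem v)]
    exact (e (β v) ⟨v, hmem v⟩).2
  have hinv : ∀ v, at' (β v) (pos v) = v := by
    intro v
    have h1 : pos v = (e (β v) ⟨v, hmem v⟩ : ℕ) := by
      simp only [pos, posc, dif_pos (hmem v)]
    have h2 : (⟨pos v, hlt v⟩ : Fin (s (β v))) = e (β v) ⟨v, hmem v⟩ := Fin.ext h1
    simp only [at', dif_pos (hlt v)]
    rw [h2, Equiv.symm_apply_apply]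
  have hinj : ∀ v v', β v = β v' → pos v = pos v' → v = v' := by
    intro v v' h1 h2
    rw [← hinv v, ← hinv v', h1, h2]
  let NE : Finset (Fin n) := univ.filter fun v => (pos v / r) * r + r ≤ s (β v)
  have hNE : ∀ v, v ∈ NE ↔ (pos v / r) * r + r ≤ s (β v) := fun v => by simp [NE]
  let blk : Fin n → Fin r → Fin n := fun v i =>
    if (pos v / r) * r + r ≤ s (β v) then at' (β v) ((pos v / r) * r + i) else v
  have hb : ∀ v, v ∈ NE → ∀ i : Fin r, (pos v / r) * r + i < s (β v) := by
    intro v hv i
    have := (hNE v).1 hv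
    have := i.2
    omega
  have hblk1 : ∀ v, v ∈ NE → ∀ i, blk v i = at' (β v) ((pos v / r) * r + i) := by
    intro v hv i
    simp only [blk, if_pos ((hNE v).1 hv)]
  have hblk2 : ∀ v, v ∉ NE → ∀ i, blk v i = v := by
    intro v hv i
    simp only [blk, if_neg (fun h => hv ((hNE v).2 h))]
  have hβ : ∀ v i, β (blk v i) = β v := by
    intro v i
    by_cases hv : v ∈ NE
    · rw [hblk1 v hv]
      exact hat _ _ (hb v hv i)
    · rw [hblk2 v hv]
  refine ⟨blk, NE, ?_, hβ, ?_, ?_⟩
  · intro v
    by_cases hv : v ∈ NE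
    · refine ⟨⟨pos v % r, Nat.mod_lt _ (by omega)⟩, ?_⟩
      rw [hblk1 v hv]
      have : (pos v / r) * r + pos v % r = pos v := by
        rw [mul_comm]; exact Nat.div_add_mod _ _
      simp only [this]
      exact hinv v
    · exact ⟨⟨0, by omega⟩, hblk2 v hv _⟩
  · intro v hv
    have hp : ∀ i, pos (blk v i) = (pos v / r) * r + i := by
      intro i
      rw [hblk1 v hv]
      exact hpos _ _ (hb v hv i)
    have hq : ∀ i : Fin r, pos (blk v i) / r = pos v / r := by
      intro i
      rw [hp i, mul_comm, Nat.mul_add_div (by omega)]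
      rw [Nat.div_eq_of_lt i.2, add_zero]
    refine ⟨?_, ?_⟩
    · intro i j hij
      have h1 := hp i
      rw [hij, hp j] at h1
      exact Fin.ext (by omega)
    · intro i
      have h1 : blk v i ∈ NE := by
        rw [hNE, hq i, hβ v i]
        exact (hNE v).1 hv
      refine ⟨h1, ?_⟩
      funext j
      have h2 := hblk1 (blk v i) h1 j
      rw [hq i, hβ v i] at h2
      rw [h2, hblk1 v hv j]
  · have hle : (univ \ NE).card ≤ (univ : Finset (Fin A × Fin r)).card := by
      apply card_le_card_of_injOn (fun v => (β v, (⟨pos v % r, Nat.mod_lt _ (by omega)⟩ : Fin r)))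
        (fun _ _ => mem_coe.2 (mem_univ _))
      intro v hv v' hv' h
      simp only [Prod.mk.injEq, Fin.mk.injEq] at h
      have hq : ∀ v, v ∉ NE → pos v / r = s (β v) / r := by
        intro v hv
        have h1 : ¬ ((pos v / r) * r + r ≤ s (β v)) := fun h => hv ((hNE v).2 h)
        have h2 := hlt v
        apply le_antisymm (Nat.div_le_div_right h2.le)
        by_contra hcon
        rw [not_le] at hcon
        apply h1
        calc (pos v / r) * r + r = (pos v / r + 1) * r := by ring
          _ ≤ (s (β v) / r) * r := Nat.mul_le_mul_right _ hcon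
          _ ≤ s (β v) := Nat.div_mul_le_self _ _
      have h1 := hq v (mem_sdiff.1 (mem_coe.1 hv)).2
      have h2 := hq v' (mem_sdiff.1 (mem_coe.1 hv')).2
      apply hinj v v' h.1
      rw [← Nat.div_add_mod (pos v) r, ← Nat.div_add_mod (pos v') r, h1, h2, h.1, h.2]
    rw [card_univ, Fintype.card_prod, Fintype.card_fin, Fintype.card_fin] at hle
    have h2 := card_sdiff_add_card (univ : Finset (Fin n)) NE
    rw [union_eq_left.2 (subset_univ NE), card_univ, Fintype.card_fin] at h2
    omega

end H630VC
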