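import Mathlib

/-! Shifts with uniformly distributed differences (helper630) -/

open scoped Classical
open Finset

namespace H630VC

/-- the shift of the vertex `a` given by `κ`: the sum of the `κ j` over the binary digits `j` of
`a` that are one -/
def shift {n R : ℕ} [NeZero R] (d : ℕ) (a : Fin n) (κ : Fin d → Fin R) : Fin R :=
  ∑ j ∈ univ.filter (fun j : Fin d => (a : ℕ).testBit j = true), κ j

theorem shift_update_mem {n R : ℕ} [NeZero R] (d : ℕ) (a : Fin n) (κ : Fin d → Fin R) (j : Fin d)
    (hj : (a : ℕ).testBit j = true) (t : Fin R) :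
    shift d a (Function.update κ j (κ j + t)) = shift d a κ + t := by
  unfold shift
  have hmem : j ∈ univ.filter (fun j : Fin d => (a : ℕ).testBit j = true) := by simp [hj]
  rw [← add_sum_erase _ _ hmem, ← add_sum_erase _ _ hmem, Function.update_self]
  have h1 : ∑ x ∈ (univ.filter (fun j : Fin d => (a : ℕ).testBit j = true)).erase j,
      Function.update κ j (κ j + t) x =
      ∑ x ∈ (univ.filter (fun j : Fin d => (a : ℕ).testBit j = true)).erase j, κ x := by
    apply sum_congr rfl
    intro x hx
    rw [Function.update_of_ne (ne_of_mem_erase hx)]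
  rw [h1, add_right_comm]

theorem shift_update_notMem {n R : ℕ} [NeZero R] (d : ℕ) (a : Fin n) (κ : Fin d → Fin R)
    (j : Fin d) (hj : ¬ (a : ℕ).testBit j = true) (t : Fin R) :
    shift d a (Function.update κ j t) = shift d a κ := by
  unfold shift
  apply sum_congr rfl
  intro x hx
  rw [Function.update_of_ne]
  rintro rfl
  exact hj (mem_filter.1 hx).2

/-- collisions are rare, one of the two orders -/
theorem card_collision_aux {n R : ℕ} [NeZero R] (d : ℕ) (a b : Fin n) (j : Fin d)
    (ha : (a : ℕ).testBit j = true) (hb : ¬ (b : ℕ).testBit j = true) (x y : Fin R) :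
    (univ.filter fun κ : Fin d → Fin R => x + shift d a κ = y + shift d b κ).card * R ≤ R ^ d := by
  have h1 : ((univ.filter fun κ : Fin d → Fin R => x + shift d a κ = y + shift d b κ) ×ˢ
      (univ : Finset (Fin R))).card ≤ (univ : Finset (Fin d → Fin R)).card := by
    apply card_le_card_of_injOn (fun z => Function.update z.1 j (z.1 j + z.2))
      (fun _ _ => mem_coe.2 (mem_univ _))
    rintro ⟨κ, t⟩ hκ ⟨κ', t'⟩ hκ' h
    simp only [coe_product, coe_filter, coe_univ, Set.mem_prod, Set.mem_ofPred_eq, mem_univ,
      true_and, Set.mem_univ, and_true] at hκ hκ' h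
    have e1 : shift d a κ + t = shift d a κ' + t' := by
      rw [← shift_update_mem d a κ j ha t, ← shift_update_mem d a κ' j ha t', h]
    have e2 : shift d b κ = shift d b κ' := by
      rw [← shift_update_notMem d b κ j hb (κ j + t), ← shift_update_notMem d b κ' j hb (κ' j + t'),
        h]
    have e3 : shift d a κ = shift d a κ' := by
      have : x + shift d a κ = x + shift d a κ' := by rw [hκ, hκ', e2]
      exact add_left_cancel this
    have e4 : t = t' := by
      rw [e3] at e1
      exact add_left_cancel e1
    have e5 : κ = κ' := by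
      funext i
      by_cases hi : i = j
      · subst hi
        have := congrFun h i
        rw [Function.update_self, Function.update_self, e4] at this
        exact add_right_cancel this
      · have := congrFun h i
        rwa [Function.update_of_ne hi, Function.update_of_ne hi] at this
    rw [e4, e5]
  rw [card_product, card_univ, card_univ, Fintype.card_fin] at h1
  simpa using h1

theorem exists_testBit {n d : ℕ} (hd : n ≤ 2 ^ d) (a b : Fin n) (h : a ≠ b) :
    ∃ j : Fin d, (a : ℕ).testBit j ≠ (b : ℕ).testBit j := by
  by_contra hcon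
  push Not at hcon
  apply h
  apply Fin.ext
  apply Nat.eq_of_testBit_eq
  intro i
  by_cases hi : i < d
  · exact hcon ⟨i, hi⟩
  · rw [not_lt] at hi
    have hp : 2 ^ d ≤ 2 ^ i := Nat.pow_le_pow_right (by norm_num) hi
    rw [Nat.testBit_lt_two_pow (lt_of_lt_of_le a.2 (hd.trans hp)),
      Nat.testBit_lt_two_pow (lt_of_lt_of_le b.2 (hd.trans hp))]

/-- collisions are rare -/
theorem card_collision {n R : ℕ} [NeZero R] {d : ℕ} (hd : n ≤ 2 ^ d) (a b : Fin n) (h : a ≠ b)
    (x y : Fin R) :
    (univ.filter fun κ : Fin d → Fin R => x + shift d a κ = y + shift d b κ).card * R ≤ R ^ d := by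
  obtain ⟨j, hj⟩ := exists_testBit hd a b h
  by_cases ha : (a : ℕ).testBit j = true
  · have hb : ¬ (b : ℕ).testBit j = true := fun hb => hj (by rw [ha, hb])
    exact card_collision_aux d a b j ha hb x y
  · have hb : (b : ℕ).testBit j = true := by
      by_contra hb
      rw [Bool.not_eq_true] at ha hb
      exact hj (by rw [ha, hb])
    have := card_collision_aux d b a j hb ha y x
    have e : (univ.filter fun κ : Fin d → Fin R => x + shift d a κ = y + shift d b κ) =
        univ.filter fun κ : Fin d → Fin R => y + shift d b κ = x + shift d a κ := by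
      apply filter_congr
      intro κ _
      exact eq_comm
    rw [e]
    exact this

end H630VC
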