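import Pool.Agent.H630VC.UGModel
import Pool.Agent.H630VC.UG2
import Pool.Agent.H630VC.UG3

/-! The NO instances (helper630) -/

open scoped Classical
open Finset

namespace H630VC

/-- the main right vertices -/
abbrev HY1 (n d r R : ℕ) : Type := (Fin r → Fin n) × (Fin d → Fin R)

/-- the right vertices -/
abbrev HY (n d r R : ℕ) : Type := HY1 n d r R ⊕ (Fin n × HY1 n d r R)

/-- the constraints of the host game -/
def hperm {n d r R : ℕ} [NeZero R] (v : Fin n) : HY n d r R → Equiv.Perm (Fin R)
  | Sum.inl y => Equiv.addRight (shift d v y.2)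
  | Sum.inr _ => Equiv.refl _

/-- the NO instance given by a block structure -/
def noGame {n d r R : ℕ} [NeZero R] (blk : Fin n → Fin r → Fin n) :
    UGame (Fin n) (HY n d r R) R where
  adj v w := ∃ κ, w = Sum.inl (blk v, κ)
  perm v w := hperm v w

variable {n d r R : ℕ} [NeZero R]

theorem noGame_degree (blk : Fin n → Fin r → Fin n) (v : Fin n) :
    (univ.filter fun w : HY n d r R => (noGame blk).adj v w).card = R ^ d := by
  have h : (univ.filter fun w : HY n d r R => (noGame blk).adj v w) =
      (univ : Finset (Fin d → Fin R)).image fun κ => Sum.inl (blk v, κ) := by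
    ext w
    rw [mem_filter, mem_image]
    constructor
    · rintro ⟨-, κ, rfl⟩; exact ⟨κ, mem_univ _, rfl⟩
    · rintro ⟨κ, -, rfl⟩; exact ⟨mem_univ _, κ, rfl⟩
  rw [h, card_image_of_injective]
  · simp
  · intro κ κ' hκ
    simpa using hκ

theorem noGame_edges (blk : Fin n → Fin r → Fin n) :
    (univ.filter fun e : Fin n × HY n d r R => (noGame blk).adj e.1 e.2).card = n * R ^ d := by
  have h : (univ.filter fun e : Fin n × HY n d r R => (noGame blk).adj e.1 e.2) =
      (univ : Finset (Fin n × (Fin d → Fin R))).image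
        fun z => (z.1, (Sum.inl (blk z.1, z.2) : HY n d r R)) := by
    ext e
    rw [mem_filter, mem_image]
    constructor
    · rintro ⟨-, κ, hκ⟩
      exact ⟨(e.1, κ), mem_univ _, Prod.ext rfl hκ.symm⟩
    · rintro ⟨z, -, rfl⟩
      exact ⟨mem_univ _, z.2, rfl⟩
  rw [h, card_image_of_injective]
  · simp
  · rintro ⟨v, κ⟩ ⟨v', κ'⟩ hz
    simp only [Prod.mk.injEq, Sum.inl.injEq] at hz
    exact Prod.ext hz.1 hz.2.2

theorem noGame_sat_le (blk : Fin n → Fin r → Fin n) (A : Fin n → Fin R)
    (B : HY n d r R → Fin R) :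
    (univ.filter fun e : Fin n × HY n d r R => (noGame blk).adj e.1 e.2 ∧
      (noGame blk).perm e.1 e.2 (A e.1) = B e.2).card ≤
    ∑ κ : Fin d → Fin R, (univ.filter fun v : Fin n =>
      A v + shift d v κ = B (Sum.inl (blk v, κ))).card := by
  have h1 : (univ.filter fun e : Fin n × HY n d r R => (noGame blk).adj e.1 e.2 ∧
      (noGame blk).perm e.1 e.2 (A e.1) = B e.2) ⊆
      ((univ : Finset (Fin d → Fin R)).sigma fun κ => univ.filter fun v : Fin n =>
        A v + shift d v κ = B (Sum.inl (blk v, κ))).image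
        fun z => (z.2, (Sum.inl (blk z.2, z.1) : HY n d r R)) := by
    rintro ⟨v, w⟩ he
    simp only [mem_filter, mem_univ, true_and] at he
    obtain ⟨⟨κ, rfl⟩, h2⟩ := he
    rw [mem_image]
    refine ⟨⟨κ, v⟩, ?_, rfl⟩
    rw [mem_sigma]
    refine ⟨mem_univ _, ?_⟩
    rw [mem_filter]
    exact ⟨mem_univ _, h2⟩
  refine (card_le_card h1).trans (card_image_le.trans ?_)
  rw [card_sigma]

/-- the bound for a single `κ` -/
theorem fiber_bound (blk : Fin n → Fin r → Fin n) (NE : Finset (Fin n)) (x : Fin n → Fin R)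
    (b : (Fin r → Fin n) → Fin R) :
    (NE.filter fun v => x v = b (blk v)).card ≤ (NE.image blk).card +
      ((NE ×ˢ NE).filter fun p => (p.1 ≠ p.2 ∧ blk p.1 = blk p.2) ∧ x p.1 = x p.2).card := by
  rcases (NE.filter fun v => x v = b (blk v)).eq_empty_or_nonempty with he | ⟨v0, hv0⟩
  · rw [he]; simp
  let rep : (Fin r → Fin n) → Fin n := fun u =>
    if h : ∃ v ∈ NE.filter (fun v => x v = b (blk v)), blk v = u then h.choose else v0
  have hrep : ∀ v ∈ NE.filter (fun v => x v = b (blk v)),
      rep (blk v) ∈ NE.filter (fun v => x v = b (blk v)) ∧ blk (rep (blk v)) = blk v := by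
    intro v hv
    have h : ∃ v' ∈ NE.filter (fun v => x v = b (blk v)), blk v' = blk v := ⟨v, hv, rfl⟩
    simp only [rep, dif_pos h]
    exact h.choose_spec
  have hsplit := card_filter_add_card_filter_not (s := NE.filter fun v => x v = b (blk v))
    (fun v => rep (blk v) = v)
  rw [← hsplit]
  apply Nat.add_le_add
  · apply card_le_card_of_injOn blk
    · intro v hv
      rw [mem_coe, mem_filter, mem_filter] at hv
      exact mem_coe.2 (mem_image_of_mem _ hv.1.1)
    · intro v hv v' hv' h
      rw [mem_coe, mem_filter] at hv hv'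
      rw [← hv.2, ← hv'.2, h]
  · apply card_le_card_of_injOn (fun v => (v, rep (blk v)))
    · intro v hv
      rw [mem_coe, mem_filter] at hv
      obtain ⟨g1, g2⟩ := hrep v hv.1
      have g3 := mem_filter.1 hv.1
      have g4 := mem_filter.1 g1
      rw [mem_coe, mem_filter, mem_product]
      refine ⟨⟨g3.1, g4.1⟩, ⟨fun e => hv.2 e.symm, g2.symm⟩, ?_⟩
      show x v = x (rep (blk v))
      rw [g3.2, g4.2, g2]
    · intro v _ v' _ h
      exact congrArg Prod.fst h

theorem card_image_blk (blk : Fin n → Fin r → Fin n) (NE : Finset (Fin n))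
    (hc : ∀ v ∈ NE, Function.Injective (blk v) ∧ ∀ i, blk v i ∈ NE ∧ blk (blk v i) = blk v) :
    r * (NE.image blk).card ≤ n := by
  have h1 : NE.card = ∑ u ∈ NE.image blk, (NE.filter fun v => blk v = u).card :=
    card_eq_sum_card_image blk NE
  have h2 : ∀ u ∈ NE.image blk, r ≤ (NE.filter fun v => blk v = u).card := by
    intro u hu
    obtain ⟨v, hv, rfl⟩ := mem_image.1 hu
    obtain ⟨hinj, hall⟩ := hc v hv
    have h3 : (univ : Finset (Fin r)).card ≤ (NE.filter fun v' => blk v' = blk v).card := by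
      apply card_le_card_of_injOn (blk v)
      · intro i _
        rw [mem_coe, mem_filter]
        exact hall i
      · exact fun i _ j _ h => hinj h
    simpa using h3
  have h4 := Finset.card_nsmul_le_sum _ _ _ h2
  rw [smul_eq_mul, ← h1] at h4
  have h5 : NE.card ≤ n := by
    have := card_le_univ NE
    simpa using this
  rw [mul_comm]
  omega

theorem card_pairs_blk (blk : Fin n → Fin r → Fin n) (NE : Finset (Fin n))
    (ha : ∀ v, ∃ i, blk v i = v) :
    ((NE ×ˢ NE).filter fun p => p.1 ≠ p.2 ∧ blk p.1 = blk p.2).card ≤ n * r := by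
  choose ix hix using ha
  have h1 : ((NE ×ˢ NE).filter fun p => p.1 ≠ p.2 ∧ blk p.1 = blk p.2).card ≤
      (univ : Finset (Fin n × Fin r)).card := by
    apply card_le_card_of_injOn (fun p => (p.1, ix p.2)) (fun _ _ => mem_coe.2 (mem_univ _))
    rintro ⟨v, w⟩ hp ⟨v', w'⟩ hp' h
    simp only [Prod.mk.injEq] at h
    rw [mem_coe, mem_filter] at hp hp'
    have h2 : blk v (ix w) = w := by
      rw [hp.2.2]; exact hix w
    have h3 : blk v' (ix w') = w' := by
      rw [hp'.2.2]; exact hix w'
    refine Prod.ext h.1 ?_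
    show w = w'
    rw [← h2, ← h3, h.1, h.2]
  simpa using h1

theorem noGame_bound (hd : n ≤ 2 ^ d) (hr : 1 ≤ r) (A0 : ℕ) (blk : Fin n → Fin r → Fin n)
    (NE : Finset (Fin n)) (ha : ∀ v, ∃ i, blk v i = v)
    (hc : ∀ v ∈ NE, Function.Injective (blk v) ∧ ∀ i, blk v i ∈ NE ∧ blk (blk v i) = blk v)
    (he : n ≤ NE.card + A0 * r) (A : Fin n → Fin R) (B : HY n d r R → Fin R) :
    ((univ.filter fun e : Fin n × HY n d r R => (noGame blk).adj e.1 e.2 ∧
      (noGame blk).perm e.1 e.2 (A e.1) = B e.2).card : ℝ) ≤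
      (n / r + n * r / R + A0 * r) * R ^ d := by
  have hR : (0 : ℝ) < R := by
    have := NeZero.pos R
    exact_mod_cast this
  have hr0 : (0 : ℝ) < r := by exact_mod_cast hr
  have hRd : (0 : ℝ) < (R : ℝ) ^ d := by positivity
  set P := (NE ×ˢ NE).filter fun p => p.1 ≠ p.2 ∧ blk p.1 = blk p.2 with hP
  -- one κ
  have h1 : ∀ κ : Fin d → Fin R, ((univ.filter fun v : Fin n =>
      A v + shift d v κ = B (Sum.inl (blk v, κ))).card : ℝ) ≤ n / r +
      (P.filter fun p => A p.1 + shift d p.1 κ = A p.2 + shift d p.2 κ).card + A0 * r := by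
    intro κ
    have e1 : (univ.filter fun v : Fin n => A v + shift d v κ = B (Sum.inl (blk v, κ))) ⊆
        (NE.filter fun v => A v + shift d v κ = B (Sum.inl (blk v, κ))) ∪ (univ \ NE) := by
      intro v hv
      rw [mem_union, mem_filter, mem_sdiff]
      by_cases hvN : v ∈ NE
      · exact Or.inl ⟨hvN, (mem_filter.1 hv).2⟩
      · exact Or.inr ⟨mem_univ _, hvN⟩
    have e2 := (card_le_card e1).trans (card_union_le _ _)
    have e3 := fiber_bound blk NE (fun v => A v + shift d v κ)
      (fun u => B (Sum.inl (u, κ)))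
    have e4 : ((NE ×ˢ NE).filter fun p => (p.1 ≠ p.2 ∧ blk p.1 = blk p.2) ∧
        A p.1 + shift d p.1 κ = A p.2 + shift d p.2 κ) =
        P.filter fun p => A p.1 + shift d p.1 κ = A p.2 + shift d p.2 κ := by
      rw [hP, filter_filter]
    have e3' : (NE.filter fun v => A v + shift d v κ = B (Sum.inl (blk v, κ))).card ≤
        (NE.image blk).card +
          (P.filter fun p => A p.1 + shift d p.1 κ = A p.2 + shift d p.2 κ).card := by
      rw [← e4]
      exact e3
    have e5 : (univ \ NE).card ≤ A0 * r := by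
      have := card_sdiff_add_card (univ : Finset (Fin n)) NE
      rw [union_eq_left.2 (subset_univ NE), card_univ, Fintype.card_fin] at this
      omega
    have e6 : ((NE.image blk).card : ℝ) ≤ n / r := by
      rw [le_div_iff₀ hr0]
      have := card_image_blk blk NE hc
      have h' : ((r * (NE.image blk).card : ℕ) : ℝ) ≤ n := by exact_mod_cast this
      push_cast at h'
      linarith
    have e7 : ((univ.filter fun v : Fin n =>
        A v + shift d v κ = B (Sum.inl (blk v, κ))).card : ℝ) ≤
        ((NE.image blk).card + (P.filter fun p =>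
          A p.1 + shift d p.1 κ = A p.2 + shift d p.2 κ).card + A0 * r : ℕ) := by
      exact_mod_cast e2.trans (Nat.add_le_add e3' e5)
    push_cast at e7
    linarith
  -- the collisions
  have h2 : (∑ κ : Fin d → Fin R, ((P.filter fun p =>
      A p.1 + shift d p.1 κ = A p.2 + shift d p.2 κ).card : ℝ)) ≤ n * r / R * R ^ d := by
    have e1 : (∑ κ : Fin d → Fin R, (P.filter fun p =>
        A p.1 + shift d p.1 κ = A p.2 + shift d p.2 κ).card) =
        ∑ p ∈ P, (univ.filter fun κ : Fin d → Fin R =>
          A p.1 + shift d p.1 κ = A p.2 + shift d p.2 κ).card := by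
      simp only [card_filter]
      rw [sum_comm]
    have e2 : (∑ p ∈ P, (univ.filter fun κ : Fin d → Fin R =>
          A p.1 + shift d p.1 κ = A p.2 + shift d p.2 κ).card) * R ≤ n * r * R ^ d := by
      rw [sum_mul]
      calc _ ≤ ∑ _p ∈ P, R ^ d := by
            apply sum_le_sum
            intro p hp
            exact card_collision hd p.1 p.2 (mem_filter.1 hp).2.1 _ _
        _ = P.card * R ^ d := by rw [sum_const, smul_eq_mul]
        _ ≤ n * r * R ^ d := Nat.mul_le_mul_right _ (card_pairs_blk blk NE ha)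
    rw [← e1] at e2
    have e3 : (((∑ κ : Fin d → Fin R, (P.filter fun p =>
        A p.1 + shift d p.1 κ = A p.2 + shift d p.2 κ).card) * R : ℕ) : ℝ) ≤
        ((n * r * R ^ d : ℕ) : ℝ) := by exact_mod_cast e2
    push_cast at e3
    have e4 : (n : ℝ) * r / R * R ^ d = (n * r * R ^ d) / R := by ring
    rw [e4, le_div_iff₀ hR]
    exact e3
  calc ((univ.filter fun e : Fin n × HY n d r R => (noGame blk).adj e.1 e.2 ∧
      (noGame blk).perm e.1 e.2 (A e.1) = B e.2).card : ℝ)
      ≤ ((∑ κ : Fin d → Fin R, (univ.filter fun v : Fin n =>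
        A v + shift d v κ = B (Sum.inl (blk v, κ))).card : ℕ) : ℝ) := by
        exact_mod_cast noGame_sat_le blk A B
    _ = ∑ κ : Fin d → Fin R, ((univ.filter fun v : Fin n =>
        A v + shift d v κ = B (Sum.inl (blk v, κ))).card : ℝ) := by push_cast; rfl
    _ ≤ ∑ κ : Fin d → Fin R, ((n : ℝ) / r + (P.filter fun p =>
          A p.1 + shift d p.1 κ = A p.2 + shift d p.2 κ).card + A0 * r) :=
        sum_le_sum fun κ _ => h1 κ
    _ = (n / r) * R ^ d + ∑ κ : Fin d → Fin R, ((P.filter fun p =>
          A p.1 + shift d p.1 κ = A p.2 + shift d p.2 κ).card : ℝ) + A0 * r * R ^ d := by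
        rw [sum_add_distrib, sum_add_distrib, sum_const, sum_const, card_univ]
        simp only [Fintype.card_fun, Fintype.card_fin, nsmul_eq_mul]
        push_cast
        ring
    _ ≤ _ := by
        have : ((n : ℝ) / r + n * r / R + A0 * r) * R ^ d =
          (n / r) * R ^ d + n * r / R * R ^ d + A0 * r * R ^ d := by ring
        rw [this]
        linarith

end H630VC
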