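import Pool.Agent.H630VC.UG1
import Pool.Agent.H630VC.UG4
import Pool.Agent.H630VC.Defs

/-! The games of the test graphs (helper630) -/

open scoped Classical
open Finset

namespace H630VC

variable {n d r R : ℕ} [NeZero R]

/-- the game of a graph: the tuples whose distinct entries are pairwise adjacent give constraints -/
def hostGame (G : SimpleGraph (Fin n)) : UGame (Fin n) (HY n d r R) R where
  adj v w := ∃ u κ, w = Sum.inl (u, κ) ∧ (∃ i, u i = v) ∧ ∀ i j, u i ≠ u j → G.Adj (u i) (u j)
  perm v w := hperm v w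

/-- the YES instance of a set `T`, made left-regular by private right vertices -/
def yesGame (T : Finset (Fin n)) : UGame (Fin n) (HY n d r R) R where
  adj v w := (hostGame (touchGraph T)).adj v w ∨
    ∃ y, w = Sum.inr (v, y) ∧ ¬ (hostGame (touchGraph T)).adj v (Sum.inl y : HY n d r R)
  perm v w := hperm v w

theorem bits_le {X Y : Type*} {R : ℕ} {I J : UGame X Y R} (h : ∀ v w, I.adj v w → J.adj v w)
    (hp : ∀ v w, I.perm v w = J.perm v w) : ∀ f ∈ ugInputs X Y R, f I ≤ f J := by
  rintro f (⟨v, w, p, rfl⟩ | ⟨c, rfl⟩)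
  · show (if I.adj v w ∧ I.perm v w = p then (1 : ℝ) else 0) ≤
      if J.adj v w ∧ J.perm v w = p then 1 else 0
    split_ifs with h1 h2 h2
    · exact le_rfl
    · exact absurd ⟨h v w h1.1, (hp v w) ▸ h1.2⟩ h2
    · exact zero_le_one
    · exact le_rfl
  · exact le_rfl

theorem noGame_le (blk : Fin n → Fin r → Fin n) (G : SimpleGraph (Fin n))
    (ha : ∀ v, ∃ i, blk v i = v) (hG : ∀ v i j, blk v i ≠ blk v j → G.Adj (blk v i) (blk v j)) :
    ∀ f ∈ ugInputs (Fin n) (HY n d r R) R, f (noGame blk) ≤ f (hostGame G) := by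
  apply bits_le
  · rintro v w ⟨κ, rfl⟩
    exact ⟨blk v, κ, rfl, ha v, hG v⟩
  · intro v w; rfl

theorem le_yesGame (T : Finset (Fin n)) :
    ∀ f ∈ ugInputs (Fin n) (HY n d r R) R, f (hostGame (touchGraph T)) ≤ f (yesGame T) := by
  apply bits_le
  · intro v w h
    exact Or.inl h
  · intro v w; rfl

theorem hostGame_inr (G : SimpleGraph (Fin n)) (v : Fin n) (z : Fin n × HY1 n d r R) :
    ¬ (hostGame G).adj v (Sum.inr z) := by
  rintro ⟨u, κ, h, -⟩
  exact absurd h (by simp)

theorem yesGame_degree (T : Finset (Fin n)) (v : Fin n) :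
    (univ.filter fun w : HY n d r R => (yesGame T).adj v w).card = Fintype.card (HY1 n d r R) := by
  let Φ : HY1 n d r R → HY n d r R := fun y =>
    if (hostGame (touchGraph T)).adj v (Sum.inl y : HY n d r R) then Sum.inl y else Sum.inr (v, y)
  have hinj : Function.Injective Φ := by
    intro y y' h
    simp only [Φ] at h
    split_ifs at h with h1 h2 h2
    · exact Sum.inl.inj h
    · exact (Prod.mk.inj (Sum.inr.inj h)).2
  have h : (univ.filter fun w : HY n d r R => (yesGame T).adj v w) = univ.image Φ := by
    ext w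
    rw [mem_filter, mem_image]
    constructor
    · rintro ⟨-, h1 | ⟨y, rfl, h1⟩⟩
      · rcases w with y | z
        · refine ⟨y, mem_univ _, ?_⟩
          simp only [Φ]
          rw [if_pos h1]
        · exact absurd h1 (hostGame_inr _ _ _)
      · refine ⟨y, mem_univ _, ?_⟩
        simp only [Φ]
        rw [if_neg h1]
    · rintro ⟨y, -, rfl⟩
      refine ⟨mem_univ _, ?_⟩
      simp only [Φ]
      split_ifs with h1
      · exact Or.inl h1
      · exact Or.inr ⟨y, rfl, h1⟩
  rw [h, card_image_of_injective _ hinj, card_univ]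

theorem yesGame_yes (T : Finset (Fin n)) (ε : ℝ) (hT : (T.card : ℝ) ≤ ε * n) :
    YesInst ε (yesGame T : UGame (Fin n) (HY n d r R) R) := by
  let B : HY n d r R → Fin R := fun w => match w with
    | Sum.inl y => if h : ∃ i, y.1 i ∉ T then 0 + shift d (y.1 h.choose) y.2 else 0
    | Sum.inr _ => 0
  refine ⟨fun _ => 0, B, Tᶜ, ?_, ?_⟩
  · rw [card_compl, Fintype.card_fin]
    have hTn : T.card ≤ n := by
      have := card_le_univ T
      simpa using this
    rw [Nat.cast_sub hTn]
    linarith
  · intro v hv w hw
    rw [mem_compl] at hv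
    rcases hw with ⟨u, κ, rfl, ⟨i, hi⟩, hcl⟩ | ⟨y, rfl, -⟩
    · have hex : ∃ i, u i ∉ T := ⟨i, by rw [hi]; exact hv⟩
      have h1 : u hex.choose = v := by
        by_contra hne
        have h2 : u hex.choose ≠ u i := by rw [hi]; exact hne
        have h3 := (hcl _ _ h2).2
        rcases h3 with h3 | h3
        · exact hex.choose_spec h3
        · rw [hi] at h3; exact hv h3
      show hperm v (Sum.inl (u, κ) : HY n d r R) 0 = B (Sum.inl (u, κ))
      simp only [B]
      rw [dif_pos hex, h1]
      rfl
    · rfl

/-- the inputs on the game of a graph are computed by few gates from the edge bits -/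
theorem host_simulate (f : UGame (Fin n) (HY n d r R) R → ℝ)
    (hf : f ∈ ugInputs (Fin n) (HY n d r R) R) :
    ∃ p : List (SimpleGraph (Fin n) → ℝ), Prog (graphInputs (Fin n)) p ∧
      (fun G => f (hostGame G)) ∈ p ∧ p.length ≤ 2 * (r * r) + 1 := by
  have hconst : ∀ c : ℝ, (fun G => f (hostGame G)) = (fun _ : SimpleGraph (Fin n) => c) →
      ∃ p : List (SimpleGraph (Fin n) → ℝ), Prog (graphInputs (Fin n)) p ∧
      (fun G => f (hostGame G)) ∈ p ∧ p.length ≤ 2 * (r * r) + 1 := by
    intro c hc
    rw [hc]
    exact ⟨[fun _ => c], Prog.input Prog.nil (Or.inr ⟨c, rfl⟩), by simp, by simp⟩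
  rcases hf with ⟨v, w, p, rfl⟩ | ⟨c, rfl⟩
  · rcases w with ⟨u, κ⟩ | z
    · by_cases h1 : (∃ i, u i = v) ∧ hperm v (Sum.inl (u, κ) : HY n d r R) = p
      · obtain ⟨q, g1, g2, g3⟩ := exists_and_prog (J := SimpleGraph (Fin n))
          (inp := graphInputs (Fin n)) (Or.inr ⟨1, rfl⟩)
          (fun (z : Fin r × Fin r) G => u z.1 ≠ u z.2 → G.Adj (u z.1) (u z.2))
          (by
            intro z
            by_cases hz : u z.1 = u z.2
            · refine Or.inr ⟨1, ?_⟩
              funext G
              rw [if_pos (fun h => absurd hz h)]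
            · refine Or.inl ⟨u z.1, u z.2, ?_⟩
              funext G
              unfold edgeBit
              by_cases hG : G.Adj (u z.1) (u z.2)
              · rw [if_pos (fun _ => hG), if_pos hG]
              · rw [if_neg (fun h => hG (h hz)), if_neg hG]) univ
        refine ⟨q, g1, ?_, ?_⟩
        · have e : (fun G : SimpleGraph (Fin n) => if (hostGame G : UGame (Fin n) (HY n d r R) R).adj v
              (Sum.inl (u, κ)) ∧ (hostGame G : UGame (Fin n) (HY n d r R) R).perm v
              (Sum.inl (u, κ)) = p then (1 : ℝ) else 0) =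
              fun G => if ∀ z ∈ (univ : Finset (Fin r × Fin r)),
                u z.1 ≠ u z.2 → G.Adj (u z.1) (u z.2) then (1 : ℝ) else 0 := by
            funext G
            have hiff : ((hostGame G : UGame (Fin n) (HY n d r R) R).adj v
              (Sum.inl (u, κ)) ∧ (hostGame G : UGame (Fin n) (HY n d r R) R).perm v
              (Sum.inl (u, κ)) = p) ↔ (∀ z ∈ (univ : Finset (Fin r × Fin r)),
                u z.1 ≠ u z.2 → G.Adj (u z.1) (u z.2)) := by
              constructor
              · rintro ⟨⟨u', κ', h2, -, h3⟩, -⟩ z _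
                have h4 := Sum.inl.inj h2
                have h5 : u = u' := (Prod.mk.inj h4).1
                rw [h5]
                exact h3 _ _
              · intro h2
                exact ⟨⟨u, κ, rfl, h1.1, fun i j => h2 (i, j) (mem_univ _)⟩, h1.2⟩
            by_cases hh : (∀ z ∈ (univ : Finset (Fin r × Fin r)),
                u z.1 ≠ u z.2 → G.Adj (u z.1) (u z.2))
            · rw [if_pos hh, if_pos (hiff.2 hh)]
            · rw [if_neg hh, if_neg (fun h => hh (hiff.1 h))]
          rw [e]
          convert g2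
        · refine g3.trans ?_
          rw [card_univ, Fintype.card_prod, Fintype.card_fin]
      · apply hconst 0
        funext G
        refine if_neg ?_
        rintro ⟨⟨u', κ', h2, h3, -⟩, h4⟩
        have h5 := Sum.inl.inj h2
        have h6 : u = u' := (Prod.mk.inj h5).1
        apply h1
        refine ⟨?_, h4⟩
        rw [h6]
        exact h3
    · apply hconst 0
      funext G
      refine if_neg ?_
      rintro ⟨h, -⟩
      exact hostGame_inr _ _ _ h
  · exact hconst c rfl

end H630VC
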