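import Pool.Agent.H630VC.UG5
import Pool.Agent.H630VC.Avg4

/-! Unique games: the lower bound (helper630) -/

open scoped Classical
open Finset

namespace H630VC

/-- relabelling the right side -/
def UGame.relabel {X Y Y' : Type*} {R : ℕ} (e : Y' ≃ Y) (J : UGame X Y R) : UGame X Y' R where
  adj v w := J.adj v (e w)
  perm v w := J.perm v (e w)

section relabel

variable {X Y Y' : Type*} [Fintype X] [Fintype Y] [Fintype Y'] {R : ℕ} (e : Y' ≃ Y)

omit [Fintype X] [Fintype Y] [Fintype Y'] in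
theorem relabel_inputs (f : UGame X Y' R → ℝ) (hf : f ∈ ugInputs X Y' R) :
    (fun J : UGame X Y R => f (J.relabel e)) ∈ ugInputs X Y R := by
  rcases hf with ⟨v, w, p, rfl⟩ | ⟨c, rfl⟩
  · exact Or.inl ⟨v, e w, p, rfl⟩
  · exact Or.inr ⟨c, rfl⟩

omit [Fintype X] [Fintype Y] [Fintype Y'] in
theorem relabel_bits {I J : UGame X Y R} (h : ∀ f ∈ ugInputs X Y R, f I ≤ f J) :
    ∀ f ∈ ugInputs X Y' R, f (I.relabel e) ≤ f (J.relabel e) := by
  intro f hf
  exact h _ (relabel_inputs e f hf)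

omit [Fintype X] in
theorem relabel_regular (J : UGame X Y R) (h : LeftRegular J) : LeftRegular (J.relabel e) := by
  obtain ⟨D, hD, h⟩ := h
  refine ⟨D, hD, fun v => ?_⟩
  rw [← h v]
  apply Finset.card_equiv e
  intro w
  rw [mem_filter, mem_filter]
  exact ⟨fun h => ⟨mem_univ _, h.2⟩, fun h => ⟨mem_univ _, h.2⟩⟩

omit [Fintype Y] [Fintype Y'] in
theorem relabel_yes (J : UGame X Y R) (ε : ℝ) (h : YesInst ε J) : YesInst ε (J.relabel e) := by
  obtain ⟨A, B, S, h1, h2⟩ := h
  exact ⟨A, fun w => B (e w), S, h1, fun v hv w hw => h2 v hv (e w) hw⟩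

theorem relabel_no (J : UGame X Y R) (δ : ℝ) (h : NoInst δ J) : NoInst δ (J.relabel e) := by
  intro A B
  have h1 := h A (fun w => B (e.symm w))
  have e1 : (univ.filter fun z : X × Y' => (J.relabel e).adj z.1 z.2 ∧
      (J.relabel e).perm z.1 z.2 (A z.1) = B z.2).card =
      (univ.filter fun z : X × Y => J.adj z.1 z.2 ∧
      J.perm z.1 z.2 (A z.1) = B (e.symm z.2)).card := by
    apply Finset.card_equiv (Equiv.prodCongr (Equiv.refl X) e)
    rintro ⟨v, w⟩
    rw [mem_filter, mem_filter]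
    show _ ↔ (_ ∧ (J.adj v (e w) ∧ J.perm v (e w) (A v) = B (e.symm (e w))))
    rw [e.symm_apply_apply]
    exact ⟨fun h => ⟨mem_univ _, h.2⟩, fun h => ⟨mem_univ _, h.2⟩⟩
  have e2 : (univ.filter fun z : X × Y' => (J.relabel e).adj z.1 z.2).card =
      (univ.filter fun z : X × Y => J.adj z.1 z.2).card := by
    apply Finset.card_equiv (Equiv.prodCongr (Equiv.refl X) e)
    rintro ⟨v, w⟩
    rw [mem_filter, mem_filter]
    exact ⟨fun h => ⟨mem_univ _, h.2⟩, fun h => ⟨mem_univ _, h.2⟩⟩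
  rw [e1, e2]
  exact h1

end relabel

theorem eventually_pow (K : ℕ) : ∃ N : ℕ, ∀ n : ℕ, N ≤ n →
    (K : ℝ) * (2 : ℝ) ^ ((n : ℝ) ^ (1 / 7 : ℝ)) < (2 : ℝ) ^ ((n : ℝ) ^ (3 / 20 : ℝ)) := by
  have h1 := (tendsto_rpow_atTop (show (0 : ℝ) < 1 / 140 by norm_num)).comp
    (tendsto_natCast_atTop_atTop (R := ℝ))
  have h2 := (tendsto_rpow_atTop (show (0 : ℝ) < 1 / 7 by norm_num)).comp
    (tendsto_natCast_atTop_atTop (R := ℝ))
  obtain ⟨N1, hN1⟩ := Filter.eventually_atTop.1 (h1.eventually_ge_atTop 2)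
  obtain ⟨N2, hN2⟩ := Filter.eventually_atTop.1 (h2.eventually_ge_atTop (K : ℝ))
  refine ⟨max (max N1 N2) 1, fun n hn => ?_⟩
  have hn1 : 1 ≤ n := (le_max_right _ _).trans hn
  have hnpos : (0 : ℝ) < n := by exact_mod_cast hn1
  have g1 := hN1 n (((le_max_left _ _).trans (le_max_left _ _)).trans hn)
  have g2 := hN2 n (((le_max_right _ _).trans (le_max_left _ _)).trans hn)
  simp only [Function.comp] at g1 g2
  set x : ℝ := (n : ℝ) ^ (1 / 7 : ℝ) with hx
  have hx0 : 0 < x := by positivity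
  have h3 : 2 * x ≤ (n : ℝ) ^ (3 / 20 : ℝ) := by
    have e : (n : ℝ) ^ (3 / 20 : ℝ) = (n : ℝ) ^ (1 / 140 : ℝ) * x := by
      rw [hx, ← Real.rpow_add hnpos]
      norm_num
    rw [e]
    exact mul_le_mul_of_nonneg_right g1 hx0.le
  have h4 : (K : ℝ) < (2 : ℝ) ^ x := by
    calc (K : ℝ) < (2 : ℝ) ^ (K : ℝ) := by
          rw [Real.rpow_natCast]
          exact_mod_cast Nat.lt_two_pow_self
      _ ≤ (2 : ℝ) ^ x := Real.rpow_le_rpow_of_exponent_le (by norm_num) g2
  calc (K : ℝ) * (2 : ℝ) ^ x < (2 : ℝ) ^ x * (2 : ℝ) ^ x := by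
        apply mul_lt_mul_of_pos_right h4 (by positivity)
    _ = (2 : ℝ) ^ (2 * x) := by
        rw [← Real.rpow_add (by norm_num)]
        ring_nf
    _ ≤ _ := Real.rpow_le_rpow_of_exponent_le (by norm_num) h3

theorem card_HY_le (n d r R : ℕ) (hn : 2 ≤ n) (hd : d = Nat.log 2 n + 1) :
    Fintype.card (HY n d r R) ≤ n ^ (r + 2 * R + 2) := by
  have h1 : Fintype.card (HY n d r R) = n ^ r * R ^ d + n * (n ^ r * R ^ d) := by
    simp [HY, HY1]
  have h2 : R ^ d ≤ n ^ (2 * R) := by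
    have e1 : R ≤ 2 ^ R := Nat.lt_two_pow_self.le
    have e2 : R ≤ n ^ R := e1.trans (Nat.pow_le_pow_left hn R)
    have e3 : R ^ Nat.log 2 n ≤ n ^ R := by
      calc R ^ Nat.log 2 n ≤ (2 ^ R) ^ Nat.log 2 n := Nat.pow_le_pow_left e1 _
        _ = (2 ^ Nat.log 2 n) ^ R := by rw [← pow_mul, ← pow_mul, mul_comm]
        _ ≤ n ^ R := Nat.pow_le_pow_left (Nat.pow_log_le_self 2 (by omega)) R
    calc R ^ d = R ^ Nat.log 2 n * R := by rw [hd, pow_succ]
      _ ≤ n ^ R * n ^ R := Nat.mul_le_mul e3 e2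
      _ = n ^ (2 * R) := by rw [← pow_add]; ring_nf
  rw [h1]
  calc n ^ r * R ^ d + n * (n ^ r * R ^ d) = (1 + n) * (n ^ r * R ^ d) := by ring
    _ ≤ n ^ 2 * (n ^ r * n ^ (2 * R)) := by
        apply Nat.mul_le_mul
        · nlinarith
        · exact Nat.mul_le_mul_left _ h2
    _ = n ^ (r + 2 * R + 2) := by rw [pow_add, pow_add]; ring

set_option maxHeartbeats 1000000 in
/-- the lower bound for unique games -/
theorem asymp_ug (ε δ : ℝ) (hε : 0 < ε) (hδ : 0 < δ) (hδ1 : δ ≤ 1) (R : ℕ)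
    (hR : 12 / δ ^ 2 ≤ R) :
    ∃ C N : ℕ, ∀ n : ℕ, N ≤ n → ∃ m : ℕ, m ≤ n ^ C ∧
      ∀ (Ω : Type) [Fintype Ω] [Nonempty Ω] (l : Ω → List (UGame (Fin n) (Fin m) R → ℝ)),
      (∀ ω, Prog (ugInputs (Fin n) (Fin m) R) (l ω)) → RDecidesGap ε δ l →
      ∃ ω, (2 : ℝ) ^ ((n : ℝ) ^ (1 / 7 : ℝ)) ≤ (l ω).length := by
  have hRpos : (0 : ℝ) < R := lt_of_lt_of_le (by positivity) hR
  have hR0 : 0 < R := by exact_mod_cast hRpos
  have : NeZero R := ⟨by omega⟩
  set r : ℕ := ⌈3 / δ⌉₊ with hr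
  have hr_ge : 3 / δ ≤ (r : ℝ) := Nat.le_ceil _
  have h3δ : 3 ≤ 3 / δ := by
    rw [le_div_iff₀ hδ]; nlinarith
  have hr_le : (r : ℝ) ≤ 4 / δ := by
    have h1 : (r : ℝ) ≤ 3 / δ + 1 := (Nat.ceil_lt_add_one (by positivity)).le
    have h2 : 3 / δ + 1 ≤ 4 / δ := by
      have : 1 ≤ 1 / δ := by rw [le_div_iff₀ hδ]; linarith
      calc 3 / δ + 1 ≤ 3 / δ + 1 / δ := by linarith
        _ = 4 / δ := by ring
    linarith
  have hr1 : 1 ≤ r := by
    have : (1 : ℝ) ≤ r := by linarith
    exact_mod_cast this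
  have hrpos : (0 : ℝ) < r := by exact_mod_cast hr1
  set σ : ℝ := 2 / δ ^ 2 with hσ
  have hσ1 : 1 ≤ σ := by
    rw [hσ, le_div_iff₀ (by positivity)]
    nlinarith
  set τ : ℝ := max 1 (1 / ε) with hτ
  have hτ1 : 1 ≤ τ := le_max_left _ _
  have hτε : 1 ≤ ε * τ := by
    have : 1 / ε ≤ τ := le_max_right _ _
    rw [div_le_iff₀ hε] at this
    linarith
  obtain ⟨N0, hN0⟩ := asymp_params (16 * 10 ^ 5 * (σ * τ)) 0 (3 / 20) (1 / 20) (by positivity)
    (by norm_num) (by norm_num) (by norm_num)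
  obtain ⟨N1, hN1⟩ := eventually_pow (2 * (r * r) + 1 + 1)
  refine ⟨r + 2 * R + 2, max N0 N1, fun n hn => ?_⟩
  obtain ⟨hn2, L, hL, hY, hsz⟩ := hN0 n ((le_max_left _ _).trans hn)
  have hpow := hN1 n ((le_max_right _ _).trans hn)
  have hnpos : (0 : ℝ) < n := by
    have : 0 < n := by omega
    exact_mod_cast this
  set d : ℕ := Nat.log 2 n + 1 with hd
  have hnd : n ≤ 2 ^ d := (Nat.lt_pow_succ_log_self (by norm_num) n).le
  refine ⟨Fintype.card (HY n d r R), card_HY_le n d r R hn2 hd, ?_⟩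
  intro Ω _ _ l hp ⟨f, hf, hall⟩
  by_contra hlt
  push Not at hlt
  let e : Fin (Fintype.card (HY n d r R)) ≃ HY n d r R := (Fintype.equivFin (HY n d r R)).symm
  let ψ : SimpleGraph (Fin n) → UGame (Fin n) (Fin (Fintype.card (HY n d r R))) R :=
    fun G => (hostGame G : UGame (Fin n) (HY n d r R) R).relabel e
  have hsim : ∀ ω, ∃ l' : List (SimpleGraph (Fin n) → ℝ), Prog (graphInputs (Fin n)) l' ∧
      (∀ g ∈ l ω, (fun G => g (ψ G)) ∈ l') ∧
      l'.length ≤ (2 * (r * r) + 1 + 1) * (l ω).length := by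
    intro ω
    apply Prog.simulate ψ (2 * (r * r) + 1) _ (hp ω)
    intro g hg
    exact host_simulate (fun J => g (J.relabel e)) (relabel_inputs e g hg)
  choose l' h1 h2 h3 using hsim
  have : Nonempty (Fin n) := ⟨⟨0, by omega⟩⟩
  have hRd : 1 ≤ R ^ d := Nat.one_le_pow _ _ hR0
  have hRdR : (0 : ℝ) < (R : ℝ) ^ d := by positivity
  refine engine2 n L 1 σ τ hL le_rfl hσ1 hτ1 ?_ l' (fun _ => []) (fun ω G => f ω (ψ G))
    (fun ω => (h1 ω).toFree) (fun ω => h2 ω _ (hf ω)) (fun ω => by simp [combos]) ?_ 1 ?_ ?_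
  · have := hY 1 (by norm_num) (by simp)
    simpa using this
  · intro ω
    have hlen : ((l' ω).length : ℝ) < (2 : ℝ) ^ ((n : ℝ) ^ (3 / 20 : ℝ)) := by
      calc ((l' ω).length : ℝ) ≤ (((2 * (r * r) + 1 + 1) * (l ω).length : ℕ) : ℝ) := by
            exact_mod_cast h3 ω
        _ = ((2 * (r * r) + 1 + 1 : ℕ) : ℝ) * (l ω).length := by push_cast; ring
        _ ≤ ((2 * (r * r) + 1 + 1 : ℕ) : ℝ) * (2 : ℝ) ^ ((n : ℝ) ^ (1 / 7 : ℝ)) := by
            gcongr
            exact (hlt ω).le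
        _ < _ := hpow
    have h4 := hsz _ hlen
    have : wires ([] : List (List ((SimpleGraph (Fin n) → ℝ) × ℝ))) = 0 := by simp [wires]
    rw [this]
    omega
  · intro G A0 β hA0 hG
    obtain ⟨blk, NE, b1, b2, b3, b4⟩ := exists_blocks hr1 β
    set I0 : UGame (Fin n) (HY n d r R) R := noGame blk with hI0
    have hreg : LeftRegular I0 := ⟨R ^ d, hRd, fun v => noGame_degree blk v⟩
    have hno : NoInst δ I0 := by
      intro A B
      have g1 := noGame_bound hnd hr1 A0 blk NE b1 b3 b4 A B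
      refine g1.trans ?_
      have g2 : ((univ.filter fun e : Fin n × HY n d r R => I0.adj e.1 e.2).card : ℝ) =
          n * (R : ℝ) ^ d := by
        rw [hI0, noGame_edges blk]
        push_cast
        ring
      rw [g2]
      have g3 : (n : ℝ) / r ≤ δ * n / 3 := by
        rw [div_le_iff₀ hrpos]
        have : 3 ≤ r * δ := by
          rw [div_le_iff₀ hδ] at hr_ge
          exact hr_ge
        nlinarith
      have g4 : (n : ℝ) * r / R ≤ δ * n / 3 := by
        rw [div_le_iff₀ hRpos]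
        have e1 : 12 ≤ δ ^ 2 * R := by
          rw [div_le_iff₀ (by positivity)] at hR
          linarith
        have e2 : r * δ ≤ 4 := by
          rw [le_div_iff₀ hδ] at hr_le
          exact hr_le
        have e3 : 3 * r ≤ δ * R := by
          have : 3 * r * δ ≤ δ * R * δ := by nlinarith
          exact le_of_mul_le_mul_right this hδ
        nlinarith
      have g5 : (A0 : ℝ) * r ≤ δ * n / 3 := by
        calc (A0 : ℝ) * r ≤ (n / (8 * σ)) * (4 / δ) := by
              apply mul_le_mul hA0 hr_le (by positivity) (by positivity)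
          _ = δ * n / 4 := by rw [hσ]; field_simp; norm_num
          _ ≤ δ * n / 3 := by
              have : 0 < δ * n := by positivity
              linarith
      calc ((n : ℝ) / r + n * r / R + A0 * r) * R ^ d ≤ (δ * n) * R ^ d := by
            apply mul_le_mul_of_nonneg_right _ hRdR.le
            linarith
        _ = δ * (n * R ^ d) := by ring
    have hle : ∀ g ∈ ugInputs (Fin n) (Fin (Fintype.card (HY n d r R))) R,
        g (I0.relabel e) ≤ g (ψ G) := by
      apply relabel_bits e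
      apply noGame_le blk G b1
      intro v i j hne
      exact hG ⟨hne, by rw [b2, b2]⟩
    refine ((hall (I0.relabel e) (relabel_regular e I0 hreg)).1 (relabel_no e I0 δ hno)).trans
      (Nat.mul_le_mul_left _ (card_le_card ?_))
    intro ω hω
    rw [mem_filter] at hω ⊢
    exact ⟨mem_univ _, hω.2.trans (Prog.le_of_inputs (hp ω) _ _ hle _ (hf ω))⟩
  · intro T hT
    have hTε : (T.card : ℝ) ≤ ε * n := by
      refine hT.trans ?_
      rw [div_le_iff₀ (by positivity)]
      have : (n : ℝ) ≤ (ε * τ) * n := by nlinarith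
      nlinarith
    set I1 : UGame (Fin n) (HY n d r R) R := yesGame T with hI1
    have hne1 : Nonempty (HY1 n d r R) :=
      ⟨(fun _ => ⟨0, by omega⟩, fun _ => ⟨0, hR0⟩)⟩
    have hreg : LeftRegular I1 := ⟨Fintype.card (HY1 n d r R), Fintype.card_pos,
      fun v => yesGame_degree T v⟩
    have hle : ∀ g ∈ ugInputs (Fin n) (Fin (Fintype.card (HY n d r R))) R,
        g (ψ (touchGraph T)) ≤ g (I1.relabel e) := relabel_bits e (le_yesGame T)
    refine quarter_of_three ((hall (I1.relabel e) (relabel_regular e I1 hreg)).2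
      (relabel_yes e I1 ε (yesGame_yes T ε hTε))) ?_
    intro ω hω hω'
    have := Prog.le_of_inputs (hp ω) _ _ hle _ (hf ω)
    exact absurd (lt_of_le_of_lt (hω'.trans this) hω) (lt_irrefl _)

/-- the gap problem on left-regular instances is decided by a nondecreasing function -/
theorem ug_monotone (ε δ : ℝ) (h : ε + δ < 1) (X Y : Type) [Fintype X] [Fintype Y] [Nonempty X]
    (R : ℕ) : ∃ f : UGame X Y R → ℝ,
      (∀ I J, (∀ g ∈ ugInputs X Y R, g I ≤ g J) → f I ≤ f J) ∧
      ∀ I, LeftRegular I → (NoInst δ I → f I = 1) ∧ (YesInst ε I → f I = 0) := by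
  let good : UGame X Y R → Prop := fun I =>
    ∃ J, (LeftRegular J ∧ NoInst δ J) ∧ ∀ g ∈ ugInputs X Y R, g J ≤ g I
  refine ⟨fun I => if good I then 1 else 0, ?_, ?_⟩
  · intro I J hIJ
    simp only
    split_ifs with h1 h2 h2
    · exact le_rfl
    · obtain ⟨K, hK, hKI⟩ := h1
      exact absurd ⟨K, hK, fun g hg => (hKI g hg).trans (hIJ g hg)⟩ h2
    · exact zero_le_one
    · exact le_rfl
  · intro I hI
    refine ⟨fun hno => if_pos ⟨I, ⟨hI, hno⟩, fun g _ => le_rfl⟩, fun hyes => if_neg ?_⟩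
    rintro ⟨J, ⟨⟨D, hD, hJD⟩, hJno⟩, hJI⟩
    obtain ⟨A, B, S, hS, hsat⟩ := hyes
    -- the edges of `J` are edges of `I` with the same constraint
    have hsub : ∀ v w, J.adj v w → I.adj v w ∧ I.perm v w = J.perm v w := by
      intro v w hvw
      have h1 := hJI _ (Or.inl ⟨v, w, J.perm v w, rfl⟩)
      simp only [hvw, true_and] at h1
      by_contra hcon
      rw [if_pos trivial, if_neg hcon] at h1
      linarith
    have hcount : (univ.filter fun e : X × Y => J.adj e.1 e.2).card = Fintype.card X * D := by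
      have e1 : (univ.filter fun e : X × Y => J.adj e.1 e.2).card =
          ∑ v : X, (univ.filter fun w => J.adj v w).card := by
        simp only [card_filter]
        rw [Fintype.sum_prod_type]
      rw [e1]
      simp [hJD]
    have hsat2 : S.card * D ≤ (univ.filter fun e : X × Y => J.adj e.1 e.2 ∧
        J.perm e.1 e.2 (A e.1) = B e.2).card := by
      have e1 : (univ.filter fun e : X × Y => J.adj e.1 e.2 ∧
          J.perm e.1 e.2 (A e.1) = B e.2).card =
          ∑ v : X, (univ.filter fun w => J.adj v w ∧ J.perm v w (A v) = B w).card := by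
        simp only [card_filter]
        rw [Fintype.sum_prod_type]
      rw [e1]
      calc S.card * D = ∑ v ∈ S, D := by simp
        _ = ∑ v ∈ S, (univ.filter fun w => J.adj v w).card := by
            apply sum_congr rfl
            intro v _
            exact (hJD v).symm
        _ ≤ ∑ v ∈ S, (univ.filter fun w => J.adj v w ∧ J.perm v w (A v) = B w).card := by
            apply sum_le_sum
            intro v hv
            apply card_le_card
            intro w hw
            rw [mem_filter] at hw ⊢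
            obtain ⟨g1, g2⟩ := hsub v w hw.2
            refine ⟨mem_univ _, hw.2, ?_⟩
            rw [← g2]
            exact hsat v hv w g1
        _ ≤ _ := sum_le_sum_of_subset (subset_univ _)
    have h1 := hJno A B
    rw [hcount] at h1
    have h2 : ((S.card * D : ℕ) : ℝ) ≤ δ * ((Fintype.card X * D : ℕ) : ℝ) :=
      le_trans (by exact_mod_cast hsat2) h1
    push_cast at h2
    have hD0 : (0 : ℝ) < D := by exact_mod_cast hD
    have hX : (0 : ℝ) < Fintype.card X := by exact_mod_cast Fintype.card_pos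
    have h3 : ((1 - ε) * Fintype.card X) * D ≤ S.card * D :=
      mul_le_mul_of_nonneg_right hS hD0.le
    have h4 : (1 - ε) * (Fintype.card X * D) ≤ δ * (Fintype.card X * D) := by
      calc (1 - ε) * ((Fintype.card X : ℝ) * D) = ((1 - ε) * Fintype.card X) * D := by ring
        _ ≤ _ := h3
        _ ≤ _ := h2
    have h5 : (0 : ℝ) < Fintype.card X * D := by positivity
    have h6 := le_of_mul_le_mul_right h4 h5
    linarith

end H630VC
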