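import Pool.Agent.H630VC.UG4

/-! The NO instances, sharp form: value at most `1/R + 1/s` for blocks of size `s²` (helper630) -/

open scoped Classical
open Finset

namespace H630VC

/-- the most popular value: a bound by the number of collisions -/
theorem popular_le {ι : Type*} {R s : ℕ} [NeZero R] (hs : 1 ≤ s) (F : Finset ι) (x : ι → Fin R)
    (b : Fin R) :
    ((F.filter fun v => x v = b).card : ℝ) ≤ F.card / R +
      ((((F ×ˢ F).filter fun p => x p.1 = x p.2).card - (F.card : ℝ) ^ 2 / R) / s + s) / 2 := by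
  have hR : (0 : ℝ) < R := by
    have := NeZero.pos R
    exact_mod_cast this
  have hs0 : (0 : ℝ) < s := by exact_mod_cast hs
  set N : Fin R → ℝ := fun c => ((F.filter fun v => x v = c).card : ℝ) with hN
  have h1 : ∑ c, N c = F.card := by
    have := card_eq_sum_card_fiberwise (f := x) (s := F) (t := univ) (fun _ _ => by simp)
    rw [this]
    push_cast
    rfl
  have h2 : (((F ×ˢ F).filter fun p => x p.1 = x p.2).card : ℝ) = ∑ c, N c ^ 2 := by
    have e1 := card_eq_sum_card_fiberwise (f := fun p : ι × ι => x p.1)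
      (s := (F ×ˢ F).filter fun p => x p.1 = x p.2) (t := univ) (fun _ _ => by simp)
    rw [e1]
    push_cast
    apply sum_congr rfl
    intro c _
    have e2 : (((F ×ˢ F).filter fun p => x p.1 = x p.2).filter fun p => x p.1 = c) =
        (F.filter fun v => x v = c) ×ˢ (F.filter fun v => x v = c) := by
      ext p
      simp only [mem_filter, mem_product]
      constructor
      · rintro ⟨⟨⟨a1, a2⟩, a3⟩, a4⟩
        exact ⟨⟨a1, a4⟩, a2, a3 ▸ a4⟩
      · rintro ⟨⟨a1, a2⟩, a3, a4⟩
        exact ⟨⟨⟨a1, a3⟩, a2.trans a4.symm⟩, a2⟩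
    rw [e2, card_product, hN]
    push_cast
    ring
  have h3 : (N b - F.card / R) ^ 2 ≤ ∑ c, (N c - F.card / R) ^ 2 :=
    single_le_sum (f := fun c => (N c - F.card / R) ^ 2) (fun c _ => sq_nonneg _) (mem_univ b)
  have h4 : ∑ c, (N c - F.card / R) ^ 2 = ∑ c, N c ^ 2 - (F.card : ℝ) ^ 2 / R := by
    have e1 : ∀ c, (N c - F.card / R) ^ 2 = N c ^ 2 - 2 * (F.card / R) * N c + (F.card / R) ^ 2 :=
      fun c => by ring
    simp only [e1]
    rw [sum_add_distrib, sum_sub_distrib, ← mul_sum, h1, sum_const, card_univ, Fintype.card_fin,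
      nsmul_eq_mul]
    field_simp
    ring
  set D := N b - F.card / R with hD
  have h5 : D ≤ (D ^ 2 / s + s) / 2 := by
    have : 0 ≤ (D - s) ^ 2 / s := by positivity
    have e : (D - s) ^ 2 / s = D ^ 2 / s - 2 * D + s := by field_simp; ring
    rw [e] at this
    linarith
  have h6 : D ^ 2 / s ≤ (∑ c, N c ^ 2 - (F.card : ℝ) ^ 2 / R) / s := by
    apply div_le_div_of_nonneg_right _ hs0.le
    rw [← h4]
    exact h3
  rw [h2]
  have h7 : N b = F.card / R + D := by rw [hD]; ring
  show N b ≤ _
  rw [h7]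
  linarith

variable {n d r R : ℕ} [NeZero R]

/-- one block, all `κ` -/
theorem block_bound {s : ℕ} (hs : 1 ≤ s) (hd : n ≤ 2 ^ d) (F : Finset (Fin n))
    (hF : F.card = s * s) (A : Fin n → Fin R) (B : (Fin d → Fin R) → Fin R) :
    (∑ κ : Fin d → Fin R, ((F.filter fun v => A v + shift d v κ = B κ).card : ℝ)) ≤
      ((F.card : ℝ) / R + s) * R ^ d := by
  have hR : (0 : ℝ) < R := by
    have := NeZero.pos R
    exact_mod_cast this
  have hs0 : (0 : ℝ) < s := by exact_mod_cast hs
  have hRd : (0 : ℝ) < (R : ℝ) ^ d := by positivity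
  have hcard : (univ : Finset (Fin d → Fin R)).card = R ^ d := by simp
  -- collisions
  have h1 : (∑ κ : Fin d → Fin R, (((F ×ˢ F).filter fun p =>
      A p.1 + shift d p.1 κ = A p.2 + shift d p.2 κ).card : ℝ)) ≤
      ((F.card : ℝ) + ((F.card : ℝ) ^ 2 - F.card) / R) * R ^ d := by
    have e1 : (∑ κ : Fin d → Fin R, ((F ×ˢ F).filter fun p =>
        A p.1 + shift d p.1 κ = A p.2 + shift d p.2 κ).card) =
        ∑ p ∈ F ×ˢ F, (univ.filter fun κ : Fin d → Fin R =>
          A p.1 + shift d p.1 κ = A p.2 + shift d p.2 κ).card := by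
      simp only [card_filter]
      rw [sum_comm]
    have e2 : ∀ p ∈ F ×ˢ F, ((univ.filter fun κ : Fin d → Fin R =>
        A p.1 + shift d p.1 κ = A p.2 + shift d p.2 κ).card : ℝ) ≤
        (if p.1 = p.2 then (1 - 1 / R) * (R : ℝ) ^ d else 0) + (R : ℝ) ^ d / R := by
      intro p _
      split_ifs with h
      · have : ((univ.filter fun κ : Fin d → Fin R =>
            A p.1 + shift d p.1 κ = A p.2 + shift d p.2 κ).card : ℝ) ≤ (R : ℝ) ^ d := by
          have := card_filter_le (univ : Finset (Fin d → Fin R))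
            (fun κ => A p.1 + shift d p.1 κ = A p.2 + shift d p.2 κ)
          rw [hcard] at this
          exact_mod_cast this
        have e : (1 - 1 / (R : ℝ)) * (R : ℝ) ^ d + (R : ℝ) ^ d / R = (R : ℝ) ^ d := by
          field_simp
          ring
        rw [e]
        exact this
      · rw [zero_add, le_div_iff₀ hR]
        have := card_collision hd p.1 p.2 h (A p.1) (A p.2)
        exact_mod_cast this
    have e3 : (∑ p ∈ F ×ˢ F, ((if p.1 = p.2 then (1 - 1 / (R : ℝ)) * (R : ℝ) ^ d else 0) +
        (R : ℝ) ^ d / R)) = F.card * ((1 - 1 / R) * (R : ℝ) ^ d) +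
          (F.card : ℝ) ^ 2 * ((R : ℝ) ^ d / R) := by
      rw [sum_add_distrib, sum_const, card_product, sum_product]
      have : ∀ x ∈ F, (∑ y ∈ F, if x = y then (1 - 1 / (R : ℝ)) * (R : ℝ) ^ d else 0) =
          (1 - 1 / (R : ℝ)) * (R : ℝ) ^ d := by
        intro x hx
        rw [sum_ite_eq, if_pos hx]
      rw [sum_congr rfl this, sum_const, nsmul_eq_mul, nsmul_eq_mul]
      push_cast
      ring
    calc (∑ κ : Fin d → Fin R, (((F ×ˢ F).filter fun p =>
        A p.1 + shift d p.1 κ = A p.2 + shift d p.2 κ).card : ℝ))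
        = ((∑ κ : Fin d → Fin R, ((F ×ˢ F).filter fun p =>
        A p.1 + shift d p.1 κ = A p.2 + shift d p.2 κ).card : ℕ) : ℝ) := by push_cast; rfl
      _ = ∑ p ∈ F ×ˢ F, ((univ.filter fun κ : Fin d → Fin R =>
          A p.1 + shift d p.1 κ = A p.2 + shift d p.2 κ).card : ℝ) := by
          rw [e1]; push_cast; rfl
      _ ≤ _ := sum_le_sum e2
      _ = _ := e3
      _ = _ := by field_simp; ring
  calc (∑ κ : Fin d → Fin R, ((F.filter fun v => A v + shift d v κ = B κ).card : ℝ))
      ≤ ∑ κ : Fin d → Fin R, ((F.card : ℝ) / R + ((((F ×ˢ F).filter fun p =>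
        A p.1 + shift d p.1 κ = A p.2 + shift d p.2 κ).card - (F.card : ℝ) ^ 2 / R) / s + s) / 2) :=
        sum_le_sum fun κ _ => popular_le hs F (fun v => A v + shift d v κ) (B κ)
    _ = ((F.card : ℝ) / R + (-((F.card : ℝ) ^ 2 / R) / s + s) / 2) * R ^ d +
        (∑ κ : Fin d → Fin R, (((F ×ˢ F).filter fun p =>
        A p.1 + shift d p.1 κ = A p.2 + shift d p.2 κ).card : ℝ)) / (2 * s) := by
        have e : ∀ κ : Fin d → Fin R, ((F.card : ℝ) / R + ((((F ×ˢ F).filter fun p =>
          A p.1 + shift d p.1 κ = A p.2 + shift d p.2 κ).card - (F.card : ℝ) ^ 2 / R) / s + s) / 2)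
          = ((F.card : ℝ) / R + (-((F.card : ℝ) ^ 2 / R) / s + s) / 2) +
            (((F ×ˢ F).filter fun p =>
            A p.1 + shift d p.1 κ = A p.2 + shift d p.2 κ).card : ℝ) / (2 * s) := by
          intro κ
          field_simp
          ring
        rw [sum_congr rfl fun κ _ => e κ, sum_add_distrib, sum_const, hcard, nsmul_eq_mul,
          ← sum_div]
        push_cast
        ring
    _ ≤ ((F.card : ℝ) / R + (-((F.card : ℝ) ^ 2 / R) / s + s) / 2) * R ^ d +
        (((F.card : ℝ) + ((F.card : ℝ) ^ 2 - F.card) / R) * R ^ d) / (2 * s) := by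
        gcongr
    _ = ((F.card : ℝ) / R + (F.card * (1 - 1 / R) / s + s) / 2) * R ^ d := by
        field_simp
        ring
    _ ≤ ((F.card : ℝ) / R + s) * R ^ d := by
        apply mul_le_mul_of_nonneg_right _ hRd.le
        have h2 : (F.card : ℝ) * (1 - 1 / R) / s ≤ s := by
          rw [div_le_iff₀ hs0, hF]
          push_cast
          have h3 : (0 : ℝ) ≤ 1 / R := by positivity
          nlinarith [mul_pos hs0 hs0]
        linarith

/-- the fibers of the block map have exactly `r` elements -/
theorem card_fiber_blk (blk : Fin n → Fin r → Fin n) (NE : Finset (Fin n))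
    (ha : ∀ v, ∃ i, blk v i = v)
    (hc : ∀ v ∈ NE, Function.Injective (blk v) ∧ ∀ i, blk v i ∈ NE ∧ blk (blk v i) = blk v)
    (u : Fin r → Fin n) (hu : u ∈ NE.image blk) : (NE.filter fun v => blk v = u).card = r := by
  obtain ⟨v, hv, rfl⟩ := mem_image.1 hu
  obtain ⟨hinj, hall⟩ := hc v hv
  have h : (NE.filter fun v' => blk v' = blk v) = univ.image (blk v) := by
    ext v'
    rw [mem_filter, mem_image]
    constructor
    · rintro ⟨-, h⟩
      obtain ⟨i, hi⟩ := ha v'
      exact ⟨i, mem_univ _, by rw [← h, hi]⟩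
    · rintro ⟨i, -, rfl⟩
      exact hall i
  rw [h, card_image_of_injective _ hinj, card_univ, Fintype.card_fin]

theorem noGame_bound2 {s : ℕ} (hs : 1 ≤ s) (hrs : r = s * s) (hd : n ≤ 2 ^ d) (A0 : ℕ)
    (blk : Fin n → Fin r → Fin n)
    (NE : Finset (Fin n)) (ha : ∀ v, ∃ i, blk v i = v)
    (hc : ∀ v ∈ NE, Function.Injective (blk v) ∧ ∀ i, blk v i ∈ NE ∧ blk (blk v i) = blk v)
    (he : n ≤ NE.card + A0 * r) (A : Fin n → Fin R) (B : HY n d r R → Fin R) :
    ((univ.filter fun e : Fin n × HY n d r R => (noGame blk).adj e.1 e.2 ∧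
      (noGame blk).perm e.1 e.2 (A e.1) = B e.2).card : ℝ) ≤
      (n / R + n / s + A0 * r) * R ^ d := by
  have hR : (0 : ℝ) < R := by
    have := NeZero.pos R
    exact_mod_cast this
  have hs0 : (0 : ℝ) < s := by exact_mod_cast hs
  have hr0 : (0 : ℝ) < r := by
    rw [hrs]; push_cast; positivity
  have hRd : (0 : ℝ) < (R : ℝ) ^ d := by positivity
  have hcard : (univ : Finset (Fin d → Fin R)).card = R ^ d := by simp
  -- one κ
  have h1 : ∀ κ : Fin d → Fin R, ((univ.filter fun v : Fin n =>
      A v + shift d v κ = B (Sum.inl (blk v, κ))).card : ℝ) ≤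
      (∑ u ∈ NE.image blk, (((NE.filter fun v => blk v = u).filter fun v =>
        A v + shift d v κ = B (Sum.inl (u, κ))).card : ℝ)) + A0 * r := by
    intro κ
    have e1 : (univ.filter fun v : Fin n => A v + shift d v κ = B (Sum.inl (blk v, κ))) ⊆
        (NE.filter fun v => A v + shift d v κ = B (Sum.inl (blk v, κ))) ∪ (univ \ NE) := by
      intro v hv
      rw [mem_union, mem_filter, mem_sdiff]
      by_cases hvN : v ∈ NE
      · exact Or.inl ⟨hvN, (mem_filter.1 hv).2⟩
      · exact Or.inr ⟨mem_univ _, hvN⟩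
    have e2 := (card_le_card e1).trans (card_union_le _ _)
    have e5 : (univ \ NE).card ≤ A0 * r := by
      have := card_sdiff_add_card (univ : Finset (Fin n)) NE
      rw [union_eq_left.2 (subset_univ NE), card_univ, Fintype.card_fin] at this
      omega
    have e6 : (NE.filter fun v => A v + shift d v κ = B (Sum.inl (blk v, κ))).card =
        ∑ u ∈ NE.image blk, ((NE.filter fun v => blk v = u).filter fun v =>
        A v + shift d v κ = B (Sum.inl (u, κ))).card := by
      rw [card_eq_sum_card_fiberwise (f := blk) (t := NE.image blk)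
        (s := NE.filter fun v => A v + shift d v κ = B (Sum.inl (blk v, κ)))
        (fun v hv => mem_coe.2 (mem_image_of_mem _ (mem_filter.1 (mem_coe.1 hv)).1))]
      apply sum_congr rfl
      intro u _
      apply congrArg
      ext v
      simp only [mem_filter]
      constructor
      · rintro ⟨⟨a1, a2⟩, a3⟩
        exact ⟨⟨a1, a3⟩, by rw [a2, a3]⟩
      · rintro ⟨⟨a1, a3⟩, a2⟩
        exact ⟨⟨a1, by rw [a2, a3]⟩, a3⟩
    rw [e6] at e2
    have e7 : ((univ.filter fun v : Fin n =>
        A v + shift d v κ = B (Sum.inl (blk v, κ))).card : ℝ) ≤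
        ((∑ u ∈ NE.image blk, ((NE.filter fun v => blk v = u).filter fun v =>
        A v + shift d v κ = B (Sum.inl (u, κ))).card) + A0 * r : ℕ) := by
      exact_mod_cast e2.trans (Nat.add_le_add_left e5 _)
    push_cast at e7
    exact e7
  calc ((univ.filter fun e : Fin n × HY n d r R => (noGame blk).adj e.1 e.2 ∧
      (noGame blk).perm e.1 e.2 (A e.1) = B e.2).card : ℝ)
      ≤ ((∑ κ : Fin d → Fin R, (univ.filter fun v : Fin n =>
        A v + shift d v κ = B (Sum.inl (blk v, κ))).card : ℕ) : ℝ) := by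
        exact_mod_cast noGame_sat_le blk A B
    _ = ∑ κ : Fin d → Fin R, ((univ.filter fun v : Fin n =>
        A v + shift d v κ = B (Sum.inl (blk v, κ))).card : ℝ) := by push_cast; rfl
    _ ≤ ∑ κ : Fin d → Fin R, ((∑ u ∈ NE.image blk, (((NE.filter fun v => blk v = u).filter
        fun v => A v + shift d v κ = B (Sum.inl (u, κ))).card : ℝ)) + A0 * r) :=
        sum_le_sum fun κ _ => h1 κ
    _ = (∑ u ∈ NE.image blk, ∑ κ : Fin d → Fin R, (((NE.filter fun v => blk v = u).filter
        fun v => A v + shift d v κ = B (Sum.inl (u, κ))).card : ℝ)) + A0 * r * R ^ d := by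
        rw [sum_add_distrib, sum_comm, sum_const, hcard, nsmul_eq_mul]
        push_cast
        ring
    _ ≤ (∑ _u ∈ NE.image blk, ((r : ℝ) / R + s) * R ^ d) + A0 * r * R ^ d := by
        gcongr with u hu
        have g1 := card_fiber_blk blk NE ha hc u hu
        have g2 := block_bound hs hd (NE.filter fun v => blk v = u) (g1.trans hrs) A
          (fun κ => B (Sum.inl (u, κ)))
        rw [g1] at g2
        exact g2
    _ = ((NE.image blk).card * r) * ((1 / R + s / r) * R ^ d) + A0 * r * R ^ d := by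
        rw [sum_const, nsmul_eq_mul]
        field_simp
    _ ≤ n * ((1 / R + s / r) * R ^ d) + A0 * r * R ^ d := by
        have : ((NE.image blk).card : ℝ) * r ≤ n := by
          have := card_image_blk blk NE hc
          have h' : ((r * (NE.image blk).card : ℕ) : ℝ) ≤ n := by exact_mod_cast this
          push_cast at h'
          linarith
        gcongr
    _ = _ := by
        rw [hrs]
        push_cast
        field_simp

end H630VC
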