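import Pool.Agent.H630VC.UG6
import Pool.Agent.H630VC.UG7

/-! Unique games: the lower bound for every alphabet and the optimal soundness (helper630) -/

open scoped Classical
open Finset

namespace H630VC

/-- adding isolated right vertices -/
noncomputable def UGame.extend {X Y Y' : Type*} {R : ℕ} (e : Y ↪ Y') (J : UGame X Y R) :
    UGame X Y' R where
  adj v w := ∃ w', e w' = w ∧ J.adj v w'
  perm v w := if h : ∃ w', e w' = w then J.perm v h.choose else Equiv.refl _

section extend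

variable {X Y Y' : Type*} [Fintype X] [Fintype Y] [Fintype Y'] {R : ℕ} (e : Y ↪ Y')

omit [Fintype X] [Fintype Y] [Fintype Y'] in
theorem extend_adj (J : UGame X Y R) (v : X) (w : Y) : (J.extend e).adj v (e w) ↔ J.adj v w :=
  ⟨fun ⟨_, h1, h2⟩ => e.injective h1 ▸ h2, fun h => ⟨w, rfl, h⟩⟩

omit [Fintype X] [Fintype Y] [Fintype Y'] in
theorem extend_perm (J : UGame X Y R) (v : X) (w : Y) : (J.extend e).perm v (e w) = J.perm v w := by
  have h : ∃ w', e w' = e w := ⟨w, rfl⟩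
  show (if h : ∃ w', e w' = e w then J.perm v h.choose else Equiv.refl _) = _
  rw [dif_pos h, e.injective h.choose_spec]

omit [Fintype X] [Fintype Y] [Fintype Y'] in
theorem extend_inputs (f : UGame X Y' R → ℝ) (hf : f ∈ ugInputs X Y' R) :
    (fun J : UGame X Y R => f (J.extend e)) ∈ ugInputs X Y R := by
  rcases hf with ⟨v, w, p, rfl⟩ | ⟨c, rfl⟩
  · by_cases hw : ∃ w', e w' = w
    · obtain ⟨w', rfl⟩ := hw
      refine Or.inl ⟨v, w', p, ?_⟩
      funext J
      simp only [extend_adj, extend_perm]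
    · refine Or.inr ⟨0, ?_⟩
      funext J
      apply if_neg
      rintro ⟨⟨w', h, -⟩, -⟩
      exact hw ⟨w', h⟩
  · exact Or.inr ⟨c, rfl⟩

omit [Fintype X] [Fintype Y] [Fintype Y'] in
theorem extend_bits {I J : UGame X Y R} (h : ∀ f ∈ ugInputs X Y R, f I ≤ f J) :
    ∀ f ∈ ugInputs X Y' R, f (I.extend e) ≤ f (J.extend e) := by
  intro f hf
  exact h _ (extend_inputs e f hf)

omit [Fintype X] in
theorem extend_regular (J : UGame X Y R) (h : LeftRegular J) : LeftRegular (J.extend e) := by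
  obtain ⟨D, hD, h⟩ := h
  refine ⟨D, hD, fun v => ?_⟩
  rw [← h v]
  symm
  apply card_bij (fun w _ => e w)
  · intro w hw
    rw [mem_filter] at hw ⊢
    exact ⟨mem_univ _, (extend_adj e J v w).2 hw.2⟩
  · intro w _ w' _ h
    exact e.injective h
  · intro w hw
    obtain ⟨w', h1, h2⟩ := (mem_filter.1 hw).2
    exact ⟨w', mem_filter.2 ⟨mem_univ _, h2⟩, h1⟩

omit [Fintype Y] [Fintype Y'] in
theorem extend_yes [NeZero R] (J : UGame X Y R) (ε : ℝ) (h : YesInst ε J) :
    YesInst ε (J.extend e) := by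
  obtain ⟨A, B, S, h1, h2⟩ := h
  refine ⟨A, fun w => if h : ∃ w', e w' = w then B h.choose else 0, S, h1, ?_⟩
  intro v hv w hw
  obtain ⟨w', rfl, hw'⟩ := hw
  have h : ∃ w'', e w'' = e w' := ⟨w', rfl⟩
  rw [extend_perm]
  show _ = (if h : ∃ w'', e w'' = e w' then B h.choose else 0)
  rw [dif_pos h, e.injective h.choose_spec]
  exact h2 v hv w' hw'

theorem extend_no (J : UGame X Y R) (δ : ℝ) (h : NoInst δ J) : NoInst δ (J.extend e) := by
  intro A B
  have h1 := h A (fun w => B (e w))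
  have e1 : (univ.filter fun z : X × Y' => (J.extend e).adj z.1 z.2 ∧
      (J.extend e).perm z.1 z.2 (A z.1) = B z.2).card =
      (univ.filter fun z : X × Y => J.adj z.1 z.2 ∧
      J.perm z.1 z.2 (A z.1) = B (e z.2)).card := by
    symm
    apply card_bij (fun z _ => (z.1, e z.2))
    · intro z hz
      rw [mem_filter] at hz ⊢
      refine ⟨mem_univ _, (extend_adj e J z.1 z.2).2 hz.2.1, ?_⟩
      show (J.extend e).perm z.1 (e z.2) (A z.1) = B (e z.2)
      rw [extend_perm]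
      exact hz.2.2
    · rintro ⟨v, w⟩ _ ⟨v', w'⟩ _ h
      simp only [Prod.mk.injEq] at h
      exact Prod.ext h.1 (e.injective h.2)
    · rintro ⟨v, w⟩ hz
      obtain ⟨-, ⟨w', h1, h2⟩, h3⟩ := mem_filter.1 hz
      simp only at h1
      subst h1
      refine ⟨(v, w'), mem_filter.2 ⟨mem_univ _, h2, ?_⟩, rfl⟩
      simp only [extend_perm] at h3
      exact h3
  have e2 : (univ.filter fun z : X × Y' => (J.extend e).adj z.1 z.2).card =
      (univ.filter fun z : X × Y => J.adj z.1 z.2).card := by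
    symm
    apply card_bij (fun z _ => (z.1, e z.2))
    · intro z hz
      rw [mem_filter] at hz ⊢
      exact ⟨mem_univ _, (extend_adj e J z.1 z.2).2 hz.2⟩
    · rintro ⟨v, w⟩ _ ⟨v', w'⟩ _ h
      simp only [Prod.mk.injEq] at h
      exact Prod.ext h.1 (e.injective h.2)
    · rintro ⟨v, w⟩ hz
      obtain ⟨-, ⟨w', h1, h2⟩⟩ := mem_filter.1 hz
      simp only at h1
      subst h1
      exact ⟨(v, w'), mem_filter.2 ⟨mem_univ _, h2⟩, rfl⟩
  rw [e1, e2]
  exact h1

end extend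

theorem eventually_pow2 (K : ℕ) (ν ν' : ℝ) (hν : 0 < ν) (h : ν < ν') : ∃ N : ℕ, ∀ n : ℕ, N ≤ n →
    (K : ℝ) * (2 : ℝ) ^ ((n : ℝ) ^ ν) < (2 : ℝ) ^ ((n : ℝ) ^ ν') := by
  have h1 := (tendsto_rpow_atTop (show (0 : ℝ) < ν' - ν by linarith)).comp
    (tendsto_natCast_atTop_atTop (R := ℝ))
  have h2 := (tendsto_rpow_atTop hν).comp (tendsto_natCast_atTop_atTop (R := ℝ))
  obtain ⟨N1, hN1⟩ := Filter.eventually_atTop.1 (h1.eventually_ge_atTop 2)
  obtain ⟨N2, hN2⟩ := Filter.eventually_atTop.1 (h2.eventually_ge_atTop (K : ℝ))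
  refine ⟨max (max N1 N2) 1, fun n hn => ?_⟩
  have hn1 : 1 ≤ n := (le_max_right _ _).trans hn
  have hnpos : (0 : ℝ) < n := by exact_mod_cast hn1
  have g1 := hN1 n (((le_max_left _ _).trans (le_max_left _ _)).trans hn)
  have g2 := hN2 n (((le_max_right _ _).trans (le_max_left _ _)).trans hn)
  simp only [Function.comp] at g1 g2
  set x : ℝ := (n : ℝ) ^ ν with hx
  have hx0 : 0 < x := by positivity
  have h3 : 2 * x ≤ (n : ℝ) ^ ν' := by
    have e : (n : ℝ) ^ ν' = (n : ℝ) ^ (ν' - ν) * x := by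
      rw [hx, ← Real.rpow_add hnpos]
      ring_nf
    rw [e]
    exact mul_le_mul_of_nonneg_right g1 hx0.le
  have h4 : (K : ℝ) < (2 : ℝ) ^ x := by
    calc (K : ℝ) < (2 : ℝ) ^ (K : ℝ) := by
          rw [Real.rpow_natCast]
          exact_mod_cast Nat.lt_two_pow_self
      _ ≤ (2 : ℝ) ^ x := Real.rpow_le_rpow_of_exponent_le (by norm_num) g2
  calc (K : ℝ) * (2 : ℝ) ^ x < (2 : ℝ) ^ x * (2 : ℝ) ^ x := by
        apply mul_lt_mul_of_pos_right h4 (by positivity)
    _ = (2 : ℝ) ^ (2 * x) := by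
        rw [← Real.rpow_add (by norm_num)]
        ring_nf
    _ ≤ _ := Real.rpow_le_rpow_of_exponent_le (by norm_num) h3

set_option maxHeartbeats 1000000 in
/-- the lower bound for unique games -/
theorem asymp_ug2 (c ν δ : ℝ) (hc : 0 ≤ c) (hν : 0 < ν) (hcν : c + 3 * ν < 1 / 2) (R : ℕ)
    (hR : 2 ≤ R) (hδ : 1 / (R : ℝ) < δ) (hδ1 : δ ≤ 1) :
    ∃ C N : ℕ, ∀ n : ℕ, N ≤ n → ∀ m : ℕ, n ^ C ≤ m →
      ∀ (Ω : Type) [Fintype Ω] [Nonempty Ω] (l : Ω → List (UGame (Fin n) (Fin m) R → ℝ)),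
      (∀ ω, Prog (ugInputs (Fin n) (Fin m) R) (l ω)) → RDecidesGap ((n : ℝ) ^ (-c)) δ l →
      ∃ ω, (2 : ℝ) ^ ((n : ℝ) ^ ν) ≤ (l ω).length := by
  have hR0 : 0 < R := by omega
  have hRpos : (0 : ℝ) < R := by exact_mod_cast hR0
  have : NeZero R := ⟨by omega⟩
  set η : ℝ := δ - 1 / R with hη
  have hη0 : 0 < η := by rw [hη]; linarith
  have hη1 : η ≤ 1 := by
    have : 0 < 1 / (R : ℝ) := by positivity
    rw [hη]; linarith
  set s : ℕ := ⌈4 / η⌉₊ with hs
  have hs_ge : 4 / η ≤ (s : ℝ) := Nat.le_ceil _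
  have hs1R : (1 : ℝ) ≤ s := by
    have : 1 ≤ 4 / η := by rw [le_div_iff₀ hη0]; linarith
    linarith
  have hs1 : 1 ≤ s := by exact_mod_cast hs1R
  have hspos : (0 : ℝ) < s := by linarith
  set r : ℕ := s * s with hr
  have hr1 : 1 ≤ r := Nat.one_le_iff_ne_zero.2 (by positivity)
  have hr1R : (1 : ℝ) ≤ r := by exact_mod_cast hr1
  set σ : ℝ := r / η with hσ
  have hσ1 : 1 ≤ σ := by
    rw [hσ, le_div_iff₀ hη0]
    linarith
  set ν' : ℝ := (ν + (1 / 2 - c) / 3) / 2 with hν'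
  have hνν' : ν < ν' := by rw [hν']; linarith
  have hν'2 : c + 3 * ν' < 1 / 2 := by rw [hν']; linarith
  obtain ⟨N0, hN0⟩ := asymp_params (16 * 10 ^ 5 * σ) c ν' (1 / 2 - c - 3 * ν') (by positivity)
    (by linarith) (by linarith) (by linarith)
  obtain ⟨N1, hN1⟩ := eventually_pow2 (2 * (r * r) + 1 + 1) ν ν' hν hνν'
  refine ⟨r + 2 * R + 2, max N0 N1, fun n hn m hm => ?_⟩
  obtain ⟨hn2, L, hL, hY, hsz⟩ := hN0 n ((le_max_left _ _).trans hn)
  have hpow := hN1 n ((le_max_right _ _).trans hn)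
  have hn1R : (1 : ℝ) ≤ n := by
    have : 1 ≤ n := by omega
    exact_mod_cast this
  have hnpos : (0 : ℝ) < n := by linarith
  set τ : ℝ := (n : ℝ) ^ c with hτ
  have hτ1 : 1 ≤ τ := Real.one_le_rpow hn1R hc
  have hετ : (n : ℝ) ^ (-c) * τ = 1 := by
    rw [hτ, ← Real.rpow_add hnpos]
    simp
  have hε0 : 0 < (n : ℝ) ^ (-c) := by positivity
  set d : ℕ := Nat.log 2 n + 1 with hd
  have hnd : n ≤ 2 ^ d := (Nat.lt_pow_succ_log_self (by norm_num) n).le
  intro Ω _ _ l hp ⟨f, hf, hall⟩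
  by_contra hlt
  push Not at hlt
  have hcardHY : Fintype.card (HY n d r R) ≤ Fintype.card (Fin m) := by
    rw [Fintype.card_fin]
    exact (card_HY_le n d r R hn2 hd).trans hm
  obtain ⟨e⟩ : Nonempty (HY n d r R ↪ Fin m) := Function.Embedding.nonempty_of_card_le hcardHY
  let ψ : SimpleGraph (Fin n) → UGame (Fin n) (Fin m) R :=
    fun G => (hostGame G : UGame (Fin n) (HY n d r R) R).extend e
  have hsim : ∀ ω, ∃ l' : List (SimpleGraph (Fin n) → ℝ), Prog (graphInputs (Fin n)) l' ∧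
      (∀ g ∈ l ω, (fun G => g (ψ G)) ∈ l') ∧
      l'.length ≤ (2 * (r * r) + 1 + 1) * (l ω).length := by
    intro ω
    apply Prog.simulate ψ (2 * (r * r) + 1) _ (hp ω)
    intro g hg
    exact host_simulate (fun J => g (J.extend e)) (extend_inputs e g hg)
  choose l' h1 h2 h3 using hsim
  have : Nonempty (Fin n) := ⟨⟨0, by omega⟩⟩
  have hRd : 1 ≤ R ^ d := Nat.one_le_pow _ _ hR0
  have hRdR : (0 : ℝ) < (R : ℝ) ^ d := by positivity
  refine engine2 n L 1 σ τ hL le_rfl hσ1 hτ1 ?_ l' (fun _ => []) (fun ω G => f ω (ψ G))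
    (fun ω => (h1 ω).toFree) (fun ω => h2 ω _ (hf ω)) (fun ω => by simp [combos]) ?_ 1 ?_ ?_
  · have := hY τ (by linarith) le_rfl
    calc 16 * 10 ^ 5 * (σ * τ) * L ^ 3 * ((Nat.log 2 n : ℝ) + 1) * ((1 : ℕ) : ℝ)
        = 16 * 10 ^ 5 * σ * L ^ 3 * ((Nat.log 2 n : ℝ) + 1) * τ := by push_cast; ring
      _ ≤ _ := this
  · intro ω
    have hlen : ((l' ω).length : ℝ) < (2 : ℝ) ^ ((n : ℝ) ^ ν') := by
      calc ((l' ω).length : ℝ) ≤ (((2 * (r * r) + 1 + 1) * (l ω).length : ℕ) : ℝ) := by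
            exact_mod_cast h3 ω
        _ = ((2 * (r * r) + 1 + 1 : ℕ) : ℝ) * (l ω).length := by push_cast; ring
        _ ≤ ((2 * (r * r) + 1 + 1 : ℕ) : ℝ) * (2 : ℝ) ^ ((n : ℝ) ^ ν) := by
            gcongr
            exact (hlt ω).le
        _ < _ := hpow
    have h4 := hsz _ hlen
    have : wires ([] : List (List ((SimpleGraph (Fin n) → ℝ) × ℝ))) = 0 := by simp [wires]
    rw [this]
    omega
  · intro G A0 β hA0 hG
    obtain ⟨blk, NE, b1, b2, b3, b4⟩ := exists_blocks hr1 β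
    set I0 : UGame (Fin n) (HY n d r R) R := noGame blk with hI0
    have hreg : LeftRegular I0 := ⟨R ^ d, hRd, fun v => noGame_degree blk v⟩
    have hno : NoInst δ I0 := by
      intro A B
      have g1 := noGame_bound2 hs1 hr hnd A0 blk NE b1 b3 b4 A B
      refine g1.trans ?_
      have g2 : ((univ.filter fun e : Fin n × HY n d r R => I0.adj e.1 e.2).card : ℝ) =
          n * (R : ℝ) ^ d := by
        rw [hI0, noGame_edges blk]
        push_cast
        ring
      rw [g2]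
      have g3 : (n : ℝ) / s ≤ η * n / 4 := by
        rw [div_le_iff₀ hspos]
        have : 4 ≤ s * η := by
          rw [div_le_iff₀ hη0] at hs_ge
          exact hs_ge
        nlinarith
      have g5 : (A0 : ℝ) * r ≤ η * n / 8 := by
        calc (A0 : ℝ) * r ≤ (n / (8 * σ)) * r := by
              apply mul_le_mul_of_nonneg_right hA0 (by positivity)
          _ = η * n / 8 := by rw [hσ]; field_simp
      calc ((n : ℝ) / R + n / s + A0 * r) * R ^ d ≤ (δ * n) * R ^ d := by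
            apply mul_le_mul_of_nonneg_right _ hRdR.le
            have g6 : (n : ℝ) / R = (δ - η) * n := by rw [hη]; ring
            have g7 : 0 < η * n := by positivity
            rw [g6]
            linarith
        _ = δ * (n * R ^ d) := by ring
    have hle : ∀ g ∈ ugInputs (Fin n) (Fin m) R, g (I0.extend e) ≤ g (ψ G) := by
      apply extend_bits e
      apply noGame_le blk G b1
      intro v i j hne
      exact hG ⟨hne, by rw [b2, b2]⟩
    refine ((hall (I0.extend e) (extend_regular e I0 hreg)).1 (extend_no e I0 δ hno)).trans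
      (Nat.mul_le_mul_left _ (card_le_card ?_))
    intro ω hω
    rw [mem_filter] at hω ⊢
    exact ⟨mem_univ _, hω.2.trans (Prog.le_of_inputs (hp ω) _ _ hle _ (hf ω))⟩
  · intro T hT
    have hTε : (T.card : ℝ) ≤ (n : ℝ) ^ (-c) * n := by
      refine hT.trans ?_
      rw [div_le_iff₀ (by positivity)]
      have : (n : ℝ) = ((n : ℝ) ^ (-c) * τ) * n := by rw [hετ, one_mul]
      nlinarith [mul_pos hε0 hnpos, mul_pos (mul_pos hε0 hnpos) (by linarith : (0 : ℝ) < τ)]
    set I1 : UGame (Fin n) (HY n d r R) R := yesGame T with hI1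
    have hne1 : Nonempty (HY1 n d r R) :=
      ⟨(fun _ => ⟨0, by omega⟩, fun _ => ⟨0, hR0⟩)⟩
    have hreg : LeftRegular I1 := ⟨Fintype.card (HY1 n d r R), Fintype.card_pos,
      fun v => yesGame_degree T v⟩
    have hle : ∀ g ∈ ugInputs (Fin n) (Fin m) R,
        g (ψ (touchGraph T)) ≤ g (I1.extend e) := extend_bits e (le_yesGame T)
    refine quarter_of_three ((hall (I1.extend e) (extend_regular e I1 hreg)).2
      (extend_yes e I1 _ (yesGame_yes T _ hTε))) ?_
    intro ω hω hω'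
    have := Prog.le_of_inputs (hp ω) _ _ hle _ (hf ω)
    exact absurd (lt_of_le_of_lt (hω'.trans this) hω) (lt_irrefl _)

end H630VC
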