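import Pool.Agent.H630VC.Model

/-!
# Unique games in bipartite form and circuits that decide the gap problem: the definitions
-/

open scoped Classical
open Finset

namespace H630VC

/-- a unique game in bipartite form with `R` labels: a bipartite graph with left side `X` and right
side `Y`, and for each pair `v`, `w` a permutation of the labels, which matters only if `v` and `w`
are adjacent -/
structure UGame (X Y : Type*) (R : ℕ) where
  /-- adjacency -/
  adj : X → Y → Prop
  /-- the constraint on the edge: the label of `w` is the image of the label of `v` -/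
  perm : X → Y → Equiv.Perm (Fin R)

/-- the inputs of the circuits: for each `v`, `w` and permutation `p` the bit that tells that `v`,
`w` are adjacent with the constraint `p`, and real constants -/
def ugInputs (X Y : Type*) (R : ℕ) : Set (UGame X Y R → ℝ) :=
  {f | (∃ (v : X) (w : Y) (p : Equiv.Perm (Fin R)),
      f = fun I => if I.adj v w ∧ I.perm v w = p then 1 else 0) ∨ ∃ c : ℝ, f = fun _ => c}

variable {X Y : Type*} [Fintype X] [Fintype Y] {R : ℕ}

/-- all left vertices have the same number `D ≥ 1` of neighbours -/
def LeftRegular (I : UGame X Y R) : Prop :=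
  ∃ D : ℕ, 1 ≤ D ∧ ∀ v, (univ.filter fun w => I.adj v w).card = D

/-- YES instances: some labelling satisfies all edges at the vertices of a set `S` of at least
`(1 - ε) |X|` left vertices -/
def YesInst (ε : ℝ) (I : UGame X Y R) : Prop :=
  ∃ (A : X → Fin R) (B : Y → Fin R) (S : Finset X), (1 - ε) * Fintype.card X ≤ S.card ∧
    ∀ v ∈ S, ∀ w, I.adj v w → I.perm v w (A v) = B w

/-- NO instances: every labelling satisfies at most a fraction `δ` of the edges -/
def NoInst (δ : ℝ) (I : UGame X Y R) : Prop :=
  ∀ (A : X → Fin R) (B : Y → Fin R),
    ((univ.filter fun e : X × Y => I.adj e.1 e.2 ∧ I.perm e.1 e.2 (A e.1) = B e.2).card : ℝ) ≤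
      δ * (univ.filter fun e : X × Y => I.adj e.1 e.2).card

/-- a randomised circuit, that is a finite family `l` of circuits indexed by the random strings in
`Ω`, decides the gap problem on the left-regular instances: its output is at least one on NO
instances and less than one on YES instances, in both cases for at least three quarters of the
random strings -/
def RDecidesGap {Ω : Type*} [Fintype Ω] (ε δ : ℝ) (l : Ω → List (UGame X Y R → ℝ)) : Prop :=
  ∃ f : Ω → UGame X Y R → ℝ, (∀ r, f r ∈ l r) ∧ ∀ I : UGame X Y R, LeftRegular I →
    (NoInst δ I → 3 * Fintype.card Ω ≤ 4 * (univ.filter fun r => 1 ≤ f r I).card) ∧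
    (YesInst ε I → 3 * Fintype.card Ω ≤ 4 * (univ.filter fun r => f r I < 1).card)

end H630VC
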